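import Mathlib
import Pool.Agent.H742R3.Mat4

/-!
Torsion certificates for matching complexes: transport along bijections and the step
`M_n → M_{n+2}`.
-/

set_option autoImplicit false

namespace Pool.Agent.W5h13.FT

open Pool.Agent.H742R3.Mat

section maps
variable {V V' V'' : Type}

/-- algebra map induced by a map of vertices -/
noncomputable def GH (g : V → V') : Ext V →ₐ[ℤ] Ext V' :=
  ExteriorAlgebra.map (Finsupp.lmapDomain ℤ ℤ g)

@[simp] lemma GH_gen (g : V → V') (v : V) : GH g (gen v) = gen (g v) := by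
  simp [GH, gen]

lemma GH_simplex (g : V → V') (l : List V) : GH g (simplex l) = simplex (l.map g) := by
  induction l with
  | nil => simp
  | cons v l ih => simp [ih]

lemma bd_GH (g : V → V') (x : Ext V) : bd (GH g x) = GH g (bd x) := by
  induction x using CliffordAlgebra.left_induction with
  | algebraMap r =>
    have h1 : bd (algebraMap ℤ (Ext V) r) = 0 := by
      unfold bd
      exact CliffordAlgebra.contractLeft_algebraMap _ _ _
    have h1' : bd (algebraMap ℤ (Ext V') r) = 0 := by
      unfold bd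
      exact CliffordAlgebra.contractLeft_algebraMap _ _ _
    have h2 : GH g (algebraMap ℤ (Ext V) r) = algebraMap ℤ (Ext V') r := AlgHom.commutes _ _
    have h3 : (algebraMap ℤ (CliffordAlgebra (0 : QuadraticForm ℤ (V →₀ ℤ))) r) = algebraMap ℤ (Ext V) r := rfl
    rw [h3, h2, h1, h1', map_zero]
  | add x y hx hy => rw [map_add, map_add, map_add, map_add, hx, hy]
  | ι_mul x m hx =>
    have e1 : GH g (CliffordAlgebra.ι (0 : QuadraticForm ℤ (V →₀ ℤ)) m * x) =
        CliffordAlgebra.ι (0 : QuadraticForm ℤ (V' →₀ ℤ)) (Finsupp.lmapDomain ℤ ℤ g m) * GH g x := by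
      rw [map_mul]
      congr 1
      exact ExteriorAlgebra.map_apply_ι _ _
    have e2 : ∀ (m : V →₀ ℤ) (y : Ext V),
        bd (CliffordAlgebra.ι (0 : QuadraticForm ℤ (V →₀ ℤ)) m * y) =
        (Finsupp.linearCombination ℤ (fun _ : V => (1 : ℤ)) m) • y -
        CliffordAlgebra.ι (0 : QuadraticForm ℤ (V →₀ ℤ)) m * bd y := by
      intro m y
      unfold bd
      exact CliffordAlgebra.contractLeft_ι_mul _ _ _
    have e3 : ∀ (m : V' →₀ ℤ) (y : Ext V'),
        bd (CliffordAlgebra.ι (0 : QuadraticForm ℤ (V' →₀ ℤ)) m * y) =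
        (Finsupp.linearCombination ℤ (fun _ : V' => (1 : ℤ)) m) • y -
        CliffordAlgebra.ι (0 : QuadraticForm ℤ (V' →₀ ℤ)) m * bd y := by
      intro m y
      unfold bd
      exact CliffordAlgebra.contractLeft_ι_mul _ _ _
    rw [e1, e2, e3, hx, map_sub, map_smul]
    congr 1
    · congr 1
      rw [Finsupp.lmapDomain_apply, Finsupp.linearCombination_mapDomain]
      rfl
    · rw [map_mul]
      congr 1
      exact (ExteriorAlgebra.map_apply_ι _ _).symm

lemma GH_GH (g : V → V') (h : V' → V'') (x : Ext V) : GH h (GH g x) = GH (h ∘ g) x := by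
  have : (GH h).comp (GH g) = GH (h ∘ g) := by
    apply ExteriorAlgebra.hom_ext
    apply Finsupp.lhom_ext'
    intro v
    apply LinearMap.ext_ring
    show GH h (GH g (gen v)) = GH (h ∘ g) (gen v)
    simp
  exact AlgHom.congr_fun this x

lemma GH_id (x : Ext V) : GH (fun v : V => v) x = x := by
  have : GH (fun v : V => v) = AlgHom.id ℤ (Ext V) := by
    apply ExteriorAlgebra.hom_ext
    apply Finsupp.lhom_ext'
    intro v
    apply LinearMap.ext_ring
    show GH (fun v : V => v) (gen v) = gen v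
    simp
  exact AlgHom.congr_fun this x

end maps

section span
variable {α β : Type} [DecidableEq α] [DecidableEq β]

lemma spn_ind {R : Type} [AddCommGroup R] [Module ℤ R] {P : List (Finset α) → Prop}
    (f : Ext (Finset α) →ₗ[ℤ] R) (S : Submodule ℤ R) (h : ∀ l, P l → f (simplex l) ∈ S)
    {z : Ext (Finset α)} (hz : z ∈ spn P) : f z ∈ S := by
  have : spn P ≤ S.comap f := by
    unfold spn
    rw [Submodule.span_le]
    rintro _ ⟨l, hl, rfl⟩
    exact h l hl
  exact this hz

lemma spn_ext {R : Type} [AddCommGroup R] [Module ℤ R] {P : List (Finset α) → Prop}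
    (f g : Ext (Finset α) →ₗ[ℤ] R)
    (h : ∀ l, P l → f (simplex l) = g (simplex l))
    {z : Ext (Finset α)} (hz : z ∈ spn P) : f z = g z := by
  have : spn P ≤ LinearMap.eqLocus f g := by
    unfold spn
    rw [Submodule.span_le]
    rintro _ ⟨l, hl, rfl⟩
    exact h l hl
  exact this hz

/-- chains with `k` edges of the matching complex of `U` -/
noncomputable def MC (U : Finset α) (k : ℕ) : Submodule ℤ (Ext (Finset α)) :=
  spn (fun l => ML U l ∧ l.length = k)

end span

/-- A `5`-torsion certificate for the homology of the matching complex of `α` in degree `k - 1`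
(chains with `k` edges). -/
def Cert (α : Type) [DecidableEq α] [Fintype α] (k : ℕ) : Prop :=
  ∃ (z w : Ext (Finset α)) (φ : Ext (Finset α) →ₗ[ℤ] ZMod 5),
    z ∈ MC (Finset.univ : Finset α) k ∧ w ∈ MC (Finset.univ : Finset α) (k + 1) ∧
    bd z = 0 ∧ bd w = (5 : ℤ) • z ∧
    (∀ y ∈ MC (Finset.univ : Finset α) (k + 1), φ (bd y) = 0) ∧ φ z ≠ 0

section step
variable {α β : Type} [DecidableEq α] [DecidableEq β] [Fintype α] [Fintype β]

/-- image of an edge -/
def up (f : α ↪ β) (e : Finset α) : Finset β := e.map f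

/-- preimage of an edge -/
def down (f : α ↪ β) (e : Finset β) : Finset α := Finset.univ.filter (fun x => f x ∈ e)

omit [DecidableEq α] [Fintype β] in
lemma down_up (f : α ↪ β) (e : Finset α) : down f (up f e) = e := by
  ext x
  unfold down up
  rw [Finset.mem_filter, Finset.mem_map']
  simp

omit [DecidableEq β] in
lemma ML_up (f : α ↪ β) {a b : β} (hf : ∀ x, f x ≠ a ∧ f x ≠ b) [DecidableEq β]
    {l : List (Finset α)} (h : ML Finset.univ l) :
    ML (Finset.univ \ {a, b}) (l.map (up f)) := by
  refine ⟨?_, ?_⟩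
  · intro e he
    rw [List.mem_map] at he
    obtain ⟨e', he', rfl⟩ := he
    refine ⟨by rw [up, Finset.card_map]; exact (h.1 e' he').1, ?_⟩
    intro x hx
    rw [up, Finset.mem_map] at hx
    obtain ⟨y, -, rfl⟩ := hx
    simp [(hf y).1, (hf y).2]
  · rw [List.pairwise_map]
    refine h.2.imp ?_
    intro e e' hee
    exact (Finset.disjoint_map _).2 hee

lemma ML_down (f : α ↪ β) {a b : β} (hf : ∀ y, y ≠ a → y ≠ b → ∃ x, f x = y)
    {l : List (Finset β)} (h : ML (Finset.univ \ {a, b}) l) :
    ML Finset.univ (l.map (down f)) := by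
  refine ⟨?_, ?_⟩
  · intro e he
    rw [List.mem_map] at he
    obtain ⟨e', he', rfl⟩ := he
    refine ⟨?_, Finset.subset_univ _⟩
    have h1 := h.1 e' he'
    have h2 : (down f e').map f = e' := by
      ext y
      simp only [down, Finset.mem_map, Finset.mem_filter, Finset.mem_univ, true_and]
      constructor
      · rintro ⟨x, hx, rfl⟩; exact hx
      · intro hy
        have h3 := h1.2 hy
        simp only [Finset.mem_sdiff, Finset.mem_univ, Finset.mem_insert, Finset.mem_singleton,
          true_and, not_or] at h3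
        obtain ⟨x, rfl⟩ := hf y h3.1 h3.2
        exact ⟨x, hy, rfl⟩
    rw [← Finset.card_map f, h2]
    exact h1.1
  · rw [List.pairwise_map]
    refine h.2.imp ?_
    intro e e' hee
    rw [Finset.disjoint_left] at hee ⊢
    intro x hx hx'
    simp only [down, Finset.mem_filter, Finset.mem_univ, true_and] at hx hx'
    exact hee hx hx'

/-- From `M_n` to `M_{n+2}`. -/
theorem Cert.step {k : ℕ} (h : Cert α k) (hc : Fintype.card β = Fintype.card α + 2)
    (hα : 0 < Fintype.card α) : Cert β (k + 1) := by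
  -- choose the two new points
  have hβ : 2 < Fintype.card β := by omega
  obtain ⟨a, b, v, hab, hav, hbv⟩ := Fintype.two_lt_card_iff.1 hβ
  have hva : v ≠ a := hav.symm
  have hvb : v ≠ b := hbv.symm
  have hcard : Fintype.card α = Fintype.card {y : β // y ≠ a ∧ y ≠ b} := by
    have : Fintype.card {y : β // y ≠ a ∧ y ≠ b} = (Finset.univ \ {a, b} : Finset β).card := by
      rw [Fintype.card_subtype]
      congr 1
      ext y
      simp
    rw [this, Finset.card_sdiff_of_subset (Finset.subset_univ _), Finset.card_pair hab,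
      Finset.card_univ, hc]
    omega
  let eqv : α ≃ {y : β // y ≠ a ∧ y ≠ b} := Fintype.equivOfCardEq hcard
  let f : α ↪ β := eqv.toEmbedding.trans (Function.Embedding.subtype _)
  have hf1 : ∀ x, f x ≠ a ∧ f x ≠ b := fun x => (eqv x).2
  have hf2 : ∀ y, y ≠ a → y ≠ b → ∃ x, f x = y := by
    intro y h1 h2
    refine ⟨eqv.symm ⟨y, h1, h2⟩, ?_⟩
    show (eqv (eqv.symm ⟨y, h1, h2⟩) : β) = y
    rw [Equiv.apply_symm_apply]
  obtain ⟨z, w, φ, hz, hw, hbz, hbw, hφ, hφz⟩ := h
  set e : Finset β := {a, b} with he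
  -- lists which come from `α`
  have hup : ∀ {m : ℕ} {x : Ext (Finset α)}, x ∈ MC (Finset.univ : Finset α) m →
      GH (up f) x ∈ MC (Finset.univ \ {a, b} : Finset β) m := by
    intro m x hx
    refine spn_ind (GH (up f)).toLinearMap _ ?_ hx
    rintro l ⟨hl, hlen⟩
    show GH (up f) (simplex l) ∈ _
    rw [GH_simplex]
    exact mem_spn ⟨ML_up f hf1 hl, by simp [hlen]⟩
  have hdown : ∀ {m : ℕ} {x : Ext (Finset β)}, x ∈ MC (Finset.univ \ {a, b} : Finset β) m →
      GH (down f) x ∈ MC (Finset.univ : Finset α) m := by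
    intro m x hx
    refine spn_ind (GH (down f)).toLinearMap _ ?_ hx
    rintro l ⟨hl, hlen⟩
    show GH (down f) (simplex l) ∈ _
    rw [GH_simplex]
    exact mem_spn ⟨ML_down f hf2 hl, by simp [hlen]⟩
  have hdu : ∀ x : Ext (Finset α), GH (down f) (GH (up f) x) = x := by
    intro x
    rw [GH_GH]
    have : (down f ∘ up f) = fun v => v := by
      funext v
      exact down_up f v
    rw [this, GH_id]
  have hae : ∀ l : List (Finset β), ML (Finset.univ \ {a, b}) l → e ∉ l := by
    intro l hl h
    have := (hl.1 _ h).2 (show a ∈ ({a, b} : Finset β) by simp)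
    simp at this
  have hhom : ∀ {m : ℕ} {x : Ext (Finset β)}, x ∈ MC (Finset.univ \ {a, b} : Finset β) m →
      bd (W a b v x) + W a b v (bd x) = x := by
    intro m x hx
    refine spn_ext (bd ∘ₗ W a b v + W a b v ∘ₗ bd) LinearMap.id ?_ hx
    rintro l ⟨hl, -⟩
    exact homotopy hab hva hvb hl
  have hcons : ∀ {m : ℕ} {x : Ext (Finset β)}, x ∈ MC (Finset.univ \ {a, b} : Finset β) m →
      gen e * x ∈ MC (Finset.univ : Finset β) (m + 1) := by
    intro m x hx
    refine spn_ind (LinearMap.mulLeft ℤ (gen e)) _ ?_ hx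
    rintro l ⟨hl, hlen⟩
    rw [LinearMap.mulLeft_apply, ← simplex_cons]
    apply mem_spn
    refine ⟨?_, by simp [hlen]⟩
    rw [ML_cons]
    refine ⟨⟨Finset.card_pair hab, Finset.subset_univ _⟩, ?_,
      ⟨fun f hf => ⟨(hl.1 f hf).1, Finset.subset_univ _⟩, hl.2⟩⟩
    intro f hf
    rw [Finset.disjoint_left]
    intro x hx hx'
    exact (Finset.mem_sdiff.1 ((hl.1 f hf).2 hx')).2 hx
  have hWm : ∀ {m : ℕ} {x : Ext (Finset β)}, x ∈ MC (Finset.univ \ {a, b} : Finset β) m →
      W a b v x ∈ MC (Finset.univ : Finset β) (m + 1) ∧ co e (W a b v x) = 0 := by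
    intro m x hx
    have h1 : W a b v x ∈ spn (fun l' => ML Finset.univ l' ∧ ({a, b} : Finset β) ∉ l' ∧
        l'.length = m + 1) := by
      refine spn_ind (W a b v) _ ?_ hx
      rintro l ⟨hl, hlen⟩
      exact W_mem hab hva hvb hl hlen
    constructor
    · refine (Submodule.span_mono ?_) h1
      rintro _ ⟨l', ⟨h2, -, h4⟩, rfl⟩
      exact ⟨l', ⟨h2, h4⟩, rfl⟩
    · have := spn_ext (co e) 0 (fun l hl => by
        rw [co_simplex_not hl.2.1, LinearMap.zero_apply]) h1
      simpa using this
  have hcoe : ∀ {m : ℕ} {x : Ext (Finset β)}, x ∈ MC (Finset.univ \ {a, b} : Finset β) m →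
      co e x = 0 := by
    intro m x hx
    have := spn_ext (co e) 0 (fun l hl => by
        rw [co_simplex_not (hae l hl.1), LinearMap.zero_apply]) hx
    simpa using this
  have hcom : ∀ {m : ℕ} {x : Ext (Finset β)}, x ∈ MC (Finset.univ : Finset β) (m + 1) →
      co e x ∈ MC (Finset.univ \ {a, b} : Finset β) m := by
    intro m x hx
    refine spn_ind (co e) _ ?_ hx
    rintro l ⟨hl, hlen⟩
    by_cases hel : e ∈ l
    · obtain ⟨s, hs⟩ := co_simplex_mem hl.nodup hel
      rw [hs]
      apply Submodule.smul_mem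
      apply mem_spn
      refine ⟨⟨?_, ?_⟩, ?_⟩
      · intro g hg
        have hgl := List.mem_of_mem_erase hg
        refine ⟨(hl.1 g hgl).1, ?_⟩
        intro x hx
        rw [Finset.mem_sdiff]
        refine ⟨Finset.mem_univ _, fun hx' => ?_⟩
        have hne : g ≠ e := by
          rintro rfl
          exact (List.Nodup.not_mem_erase hl.nodup) hg
        have hd : Disjoint g e := hl.2.forall hgl hel hne
        exact Finset.disjoint_left.1 hd hx hx'
      · exact hl.2.sublist (List.erase_sublist)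
      · rw [List.length_erase_of_mem hel, hlen]; rfl
    · rw [co_simplex_not hel]
      exact Submodule.zero_mem _
  have hdd : ∀ x : Ext (Finset β), bd (gen e * x) = x - gen e * bd x := fun x => bd_gen_mul e x
  refine ⟨gen e * GH (up f) z - W a b v (GH (up f) z),
    W a b v (GH (up f) w) - gen e * GH (up f) w,
    φ ∘ₗ (GH (down f)).toLinearMap ∘ₗ co e, ?_, ?_, ?_, ?_, ?_, ?_⟩
  · exact Submodule.sub_mem _ (hcons (hup hz)) (hWm (hup hz)).1
  · exact Submodule.sub_mem _ (hWm (hup hw)).1 (hcons (hup hw))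
  · have h1 := hhom (hup hz)
    rw [bd_GH, hbz, map_zero, map_zero, add_zero] at h1
    rw [map_sub, hdd, bd_GH, hbz, map_zero, mul_zero, sub_zero, h1, sub_self]
  · have h1 := hhom (hup hw)
    rw [bd_GH, hbw, map_smul, map_smul] at h1
    have h2 : bd (W a b v (GH (up f) w)) =
        GH (up f) w - (5 : ℤ) • W a b v (GH (up f) z) := by
      rw [eq_sub_iff_add_eq]; exact h1
    rw [map_sub, hdd, h2, bd_GH, hbw, map_smul, mul_smul_comm, smul_sub]
    abel
  · intro y hy
    show φ (GH (down f) (co e (bd y))) = 0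
    have h1 : co e (bd y) = - bd (co e y) := by rw [bd_co, neg_neg]
    rw [h1, map_neg, map_neg, ← bd_GH, hφ _ (hdown (hcom hy)), neg_zero]
  · show φ (GH (down f) (co e (gen e * GH (up f) z - W a b v (GH (up f) z)))) ≠ 0
    rw [map_sub, (hWm (hup hz)).2, sub_zero, co_gen_mul, if_pos rfl, hcoe (hup hz), mul_zero,
      sub_zero, hdu]
    exact hφz

end step

/-- A certificate gives an element of order `5`. -/
theorem Cert.order {n k : ℕ} (h : Cert (Fin n) k) [lo : LinearOrder (Finset (Fin n))] :
    ∃ x : Homology (Mn n) ((k : ℤ) - 1), addOrderOf x = 5 := by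
  obtain ⟨z, w, φ, hz, hw, hbz, hbw, hφ, hφz⟩ := h
  have hM : ∀ (d : ℤ) (m : ℕ) (_ : (m : ℤ) = d + 1) (τ : Ch (Finset (Fin n))),
      τ ∈ chains (Mn n) d ↔ toExt τ ∈ MC (Finset.univ : Finset (Fin n)) m := by
    intro d m hm τ
    unfold Mn
    rw [mem_chains_iff, chE_matchings]
    unfold MC
    have : (fun l : List (Finset (Fin n)) => ML Finset.univ l ∧ (l.length : ℤ) = d + 1) =
        fun l => ML Finset.univ l ∧ l.length = m := by
      funext l
      rw [← hm]
      simp
    rw [this]
  have hzc : (toExt (V := Finset (Fin n))).symm z ∈ cycles (Mn n) ((k : ℤ) - 1) := by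
    refine ⟨(hM _ k (by ring) _).2 (by rwa [LinearEquiv.apply_symm_apply]), ?_⟩
    show bdry _ = 0
    apply (toExt (V := Finset (Fin n))).injective
    rw [toExt_bdry, LinearEquiv.apply_symm_apply, hbz, map_zero]
  refine ⟨Submodule.Quotient.mk ⟨_, hzc⟩, ?_⟩
  have : Fact (Nat.Prime 5) := ⟨by norm_num⟩
  apply addOrderOf_eq_prime
  · rw [← Submodule.Quotient.mk_smul, Submodule.Quotient.mk_eq_zero]
    show (5 • (⟨_, hzc⟩ : cycles (Mn n) ((k : ℤ) - 1)) : Ch (Finset (Fin n))) ∈
      boundaries (Mn n) ((k : ℤ) - 1)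
    refine ⟨(toExt (V := Finset (Fin n))).symm w, ?_, ?_⟩
    · exact (hM _ (k + 1) (by push_cast; ring) _).2 (by rwa [LinearEquiv.apply_symm_apply])
    · apply (toExt (V := Finset (Fin n))).injective
      rw [toExt_bdry, LinearEquiv.apply_symm_apply, hbw]
      show (5 : ℤ) • z = toExt ((5 : ℕ) • (toExt (V := Finset (Fin n))).symm z)
      rw [map_nsmul, LinearEquiv.apply_symm_apply]
      norm_cast
  · intro h0
    rw [Submodule.Quotient.mk_eq_zero] at h0
    obtain ⟨c, hc, hcz⟩ := h0
    have hcz : bdry c = (toExt (V := Finset (Fin n))).symm z := hcz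
    have h1 := hφ (toExt c) ((hM _ (k + 1) (by push_cast; ring) _).1 hc)
    rw [← toExt_bdry, hcz, LinearEquiv.apply_symm_apply] at h1
    exact hφz h1

end Pool.Agent.W5h13.FT
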