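import Mathlib
import Pool.Agent.W5h13.FT1

/-!
Averaging over a finite group with a linear character, and a pairing on the exterior algebra.
-/

set_option autoImplicit false

namespace Pool.Agent.W5h13.FT

open Pool.Agent.H742R3.Mat

section top
variable {α : Type} [DecidableEq α]

lemma mem_spn_top (x : Ext (Finset α)) : x ∈ spn (fun _ : List (Finset α) => True) := by
  induction x using CliffordAlgebra.left_induction with
  | algebraMap r =>
    have : (algebraMap ℤ (CliffordAlgebra (0 : QuadraticForm ℤ (Finset α →₀ ℤ))) r) =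
        r • (simplex ([] : List (Finset α))) := by
      rw [simplex_nil, Algebra.algebraMap_eq_smul_one]
    rw [this]
    exact Submodule.smul_mem _ _ (mem_spn trivial)
  | add x y hx hy => exact Submodule.add_mem _ hx hy
  | ι_mul x m hx =>
    refine spn_ind (LinearMap.mulLeft ℤ (CliffordAlgebra.ι
      (0 : QuadraticForm ℤ (Finset α →₀ ℤ)) m : Ext (Finset α))) _ ?_ hx
    intro l _
    induction m using Finsupp.induction_linear with
    | zero => simp
    | add m n hm hn =>
      rw [LinearMap.mulLeft_apply] at hm hn ⊢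
      rw [map_add, add_mul]
      exact Submodule.add_mem _ hm hn
    | single v c =>
      have : (CliffordAlgebra.ι (0 : QuadraticForm ℤ (Finset α →₀ ℤ)) (Finsupp.single v c) :
          Ext (Finset α)) = c • gen v := by
        have h1 : (Finsupp.single v c : Finset α →₀ ℤ) = c • Finsupp.single v 1 := by simp
        rw [h1, map_smul]
        rfl
      rw [LinearMap.mulLeft_apply, this, smul_mul_assoc, ← simplex_cons]
      exact Submodule.smul_mem _ _ (mem_spn trivial)

lemma ext_top {R : Type} [AddCommGroup R] [Module ℤ R]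
    {f g : Ext (Finset α) →ₗ[ℤ] R} (h : ∀ l, f (simplex l) = g (simplex l))
    (x : Ext (Finset α)) : f x = g x := by
  have := mem_spn_top x
  have h2 : spn (fun _ : List (Finset α) => True) ≤ LinearMap.eqLocus f g := by
    unfold spn
    rw [Submodule.span_le]
    rintro _ ⟨l, -, rfl⟩
    exact h l
  exact h2 this

end top

section pairing
variable {V : Type}

/-- the contraction operators, as an algebra map -/
noncomputable def C : Ext V →ₐ[ℤ] Module.End ℤ (Ext V) :=
  ExteriorAlgebra.lift ℤ ⟨CliffordAlgebra.contractLeft ∘ₗ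
    Finsupp.linearCombination ℤ (fun v : V => (Finsupp.lapply v : (V →₀ ℤ) →ₗ[ℤ] ℤ)), by
      intro m
      apply LinearMap.ext
      intro x
      exact CliffordAlgebra.contractLeft_contractLeft _ _⟩

lemma C_gen (v : V) (x : Ext V) : C (gen v) x = co v x := by
  unfold C gen co
  rw [ExteriorAlgebra.lift_ι_apply]
  simp

lemma C_cons (v : V) (l : List V) (x : Ext V) :
    C (simplex (v :: l)) x = co v (C (simplex l) x) := by
  rw [simplex_cons, map_mul, Module.End.mul_apply, C_gen]

lemma C_nil (x : Ext V) : C (simplex ([] : List V)) x = x := by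
  rw [simplex_nil, map_one, Module.End.one_apply]

/-- the degree zero part -/
noncomputable def eps : Ext V →ₗ[ℤ] ℤ := (ExteriorAlgebra.algebraMapInv).toLinearMap

lemma eps_gen_mul (v : V) (x : Ext V) : eps (gen v * x) = 0 := by
  unfold eps gen
  rw [AlgHom.toLinearMap_apply, map_mul]
  have : ExteriorAlgebra.algebraMapInv (ExteriorAlgebra.ι ℤ (Finsupp.single v 1 : V →₀ ℤ)) = (0 : ℤ) := by
    unfold ExteriorAlgebra.algebraMapInv
    rw [ExteriorAlgebra.lift_ι_apply]
    rfl
  rw [this, zero_mul]

lemma eps_one : eps (1 : Ext V) = 1 := by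
  unfold eps
  rw [AlgHom.toLinearMap_apply, map_one]

/-- the pairing -/
noncomputable def B (x y : Ext V) : ℤ := eps (C x y)

/-- the pairing as a linear map in the second variable -/
noncomputable def Br (x : Ext V) : Ext V →ₗ[ℤ] ℤ := eps ∘ₗ C x

lemma Br_apply (x y : Ext V) : Br x y = B x y := rfl

/-- the pairing as a linear map in the first variable -/
noncomputable def Bl (y : Ext V) : Ext V →ₗ[ℤ] ℤ :=
  eps ∘ₗ (LinearMap.applyₗ y) ∘ₗ C.toLinearMap

lemma Bl_apply (x y : Ext V) : Bl y x = B x y := rfl

lemma B_add_left (x x' y : Ext V) : B (x + x') y = B x y + B x' y := map_add (Bl y) x x'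

lemma B_smul_left (c : ℤ) (x y : Ext V) : B (c • x) y = c * B x y := map_smul (Bl y) c x

lemma B_smul_right (c : ℤ) (x y : Ext V) : B x (c • y) = c * B x y := map_smul (Br x) c y

lemma C_bd (l : List V) (x : Ext V) :
    C (simplex l) (bd x) = (-1 : ℤ) ^ l.length • bd (C (simplex l) x) := by
  induction l with
  | nil => rw [C_nil, C_nil]; simp
  | cons v l ih =>
    rw [C_cons, C_cons, ih, map_smul, bd_co, List.length_cons, pow_succ, mul_neg_one, neg_smul,
      smul_neg, neg_neg]

end pairing

section inv
variable {α β : Type} [DecidableEq α] [DecidableEq β]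

lemma co_GH {V V' : Type} [DecidableEq V] [DecidableEq V'] (g : V → V')
    (hg : Function.Injective g) (v : V) (l : List V) :
    co (g v) (GH g (simplex l)) = GH g (co v (simplex l)) := by
  induction l with
  | nil => simp
  | cons u l ih =>
    rw [simplex_cons, map_mul, GH_gen, co_gen_mul, co_gen_mul, ih, map_sub, map_mul, GH_gen]
    by_cases h : u = v
    · subst h
      rw [if_pos rfl, if_pos rfl]
    · rw [if_neg h, if_neg (fun h' => h (hg h')), map_zero]

lemma co_GH' (g : Finset α → Finset β) (hg : Function.Injective g) (v : Finset α)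
    (x : Ext (Finset α)) : co (g v) (GH g x) = GH g (co v x) :=
  ext_top (f := co (g v) ∘ₗ (GH g).toLinearMap) (g := (GH g).toLinearMap ∘ₗ co v)
    (fun l => co_GH g hg v l) x

lemma C_GH (g : Finset α → Finset β) (hg : Function.Injective g) (l : List (Finset α))
    (x : Ext (Finset α)) : C (GH g (simplex l)) (GH g x) = GH g (C (simplex l) x) := by
  rw [GH_simplex]
  induction l with
  | nil => rw [List.map_nil, C_nil, C_nil]
  | cons v l ih => rw [List.map_cons, C_cons, ih, C_cons, co_GH' g hg]

lemma eps_GH {V V' : Type} (g : V → V') (x : Ext V) : eps (GH g x) = eps x := by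
  have : (ExteriorAlgebra.algebraMapInv).comp (GH g) =
      (ExteriorAlgebra.algebraMapInv : Ext V →ₐ[ℤ] ℤ) := by
    apply ExteriorAlgebra.hom_ext
    apply Finsupp.lhom_ext'
    intro v
    apply LinearMap.ext_ring
    show eps (GH g (gen v)) = eps (gen v)
    rw [GH_gen, ← mul_one (gen (g v)), ← mul_one (gen v), eps_gen_mul, eps_gen_mul]
  exact AlgHom.congr_fun this x

lemma B_GH (g : Finset α → Finset β) (hg : Function.Injective g) (x y : Ext (Finset α)) :
    B (GH g x) (GH g y) = B x y := by
  have := ext_top (f := Bl (GH g y) ∘ₗ (GH g).toLinearMap) (g := Bl y) (fun l => by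
    show B (GH g (simplex l)) (GH g y) = B (simplex l) y
    unfold B
    rw [C_GH g hg, eps_GH]) x
  exact this

/-- `C (simplex l)` on lists -/
lemma C_mem {V : Type} [DecidableEq V] (l : List V) (l' : List V) :
    l'.Nodup → C (simplex l) (simplex l') = 0 ∨
      ∃ (s : ℤ) (l'' : List V), l''.Nodup ∧ l'' ⊆ l' ∧ (∀ v ∈ l, v ∈ l') ∧
        l''.length + l.length = l'.length ∧
        C (simplex l) (simplex l') = s • simplex l'' := by
  intro hn
  induction l with
  | nil =>
    right
    exact ⟨1, l', hn, fun _ h => h, by simp, by simp, by rw [C_nil, one_smul]⟩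
  | cons v l ih =>
    rcases ih with h | ⟨s, l'', h1, h2, h3, h4, h5⟩
    · left
      rw [C_cons, h, map_zero]
    · by_cases hv : v ∈ l''
      · right
        have hco : ∃ t : ℤ, co v (simplex l'') = t • simplex (l''.erase v) := by
          clear h5 h4 h3 h2 hn
          induction l'' with
          | nil => simp at hv
          | cons f l ih =>
            rw [List.nodup_cons] at h1
            have hnot : ∀ (w : V) (m : List V), w ∉ m → co w (simplex m) = 0 := by
              intro w m hm
              induction m with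
              | nil => simp
              | cons a m ihm =>
                rw [List.mem_cons, not_or] at hm
                rw [simplex_cons, co_gen_mul, if_neg (Ne.symm hm.1), ihm hm.2, mul_zero, sub_zero]
            by_cases hf : f = v
            · subst hf
              refine ⟨1, ?_⟩
              rw [simplex_cons, co_gen_mul, if_pos rfl, hnot _ _ h1.1, mul_zero, sub_zero,
                one_smul]
              simp
            · have he : v ∈ l := by
                rcases List.mem_cons.1 hv with h | h
                · exact absurd h.symm hf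
                · exact h
              obtain ⟨s, hs⟩ := ih h1.2 he
              refine ⟨-s, ?_⟩
              rw [simplex_cons, co_gen_mul, if_neg hf, hs, List.erase_cons_tail (by simpa using hf),
                simplex_cons, mul_smul_comm]
              simp
        obtain ⟨t, ht⟩ := hco
        refine ⟨s * t, l''.erase v, h1.erase v, fun x hx => h2 (List.mem_of_mem_erase hx), ?_, ?_,
          ?_⟩
        · intro w hw
          rcases List.mem_cons.1 hw with rfl | hw
          · exact h2 hv
          · exact h3 w hw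
        · rw [List.length_erase_of_mem hv, List.length_cons]
          have : 0 < l''.length := List.length_pos_of_mem hv
          omega
        · rw [C_cons, h5, map_smul, ht, smul_smul]
      · left
        have hnot : ∀ (w : V) (m : List V), w ∉ m → co w (simplex m) = 0 := by
          intro w m hm
          induction m with
          | nil => simp
          | cons a m ihm =>
            rw [List.mem_cons, not_or] at hm
            rw [simplex_cons, co_gen_mul, if_neg (Ne.symm hm.1), ihm hm.2, mul_zero, sub_zero]
        rw [C_cons, h5, map_smul, hnot v l'' hv, smul_zero]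

lemma B_ne_zero {V : Type} [DecidableEq V] {l l' : List V} (hn : l'.Nodup)
    (h : B (simplex l) (simplex l') ≠ 0) : ∀ v ∈ l, v ∈ l' := by
  rcases C_mem l l' hn with h0 | ⟨s, l'', -, -, h3, -, -⟩
  · exfalso
    apply h
    unfold B
    rw [h0, map_zero]
  · exact h3

lemma simplex_not_nodup {V : Type} [DecidableEq V] {l : List V} (h : ¬ l.Nodup) :
    simplex l = 0 := by
  induction l with
  | nil => simp at h
  | cons v l ih =>
    rw [List.nodup_cons, not_and_or, not_not] at h
    rw [simplex_cons]
    rcases h with h | h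
    · clear ih
      induction l with
      | nil => simp at h
      | cons w l ih =>
        rw [simplex_cons, ← mul_assoc]
        rcases List.mem_cons.1 h with rfl | h
        · rw [gen_sq, zero_mul]
        · rw [gen_swap, neg_mul, mul_assoc, ih h, mul_zero, neg_zero]
    · rw [ih h, mul_zero]

end inv

section avg
variable {α : Type} [DecidableEq α] [Fintype α] {K : Type} [Group K] [Fintype K]

/-- action of a map of points on edges -/
def im (g : α → α) (e : Finset α) : Finset α := e.image g

omit [Fintype α] in
lemma im_im (g h : α → α) (e : Finset α) : im g (im h e) = im (g ∘ h) e := Finset.image_image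

omit [Fintype α] in
lemma im_inj {g : α → α} (hg : Function.Injective g) : Function.Injective (im g) :=
  Finset.image_injective hg

variable (ρ : K →* Equiv.Perm α) (χ : K →* ℤˣ)

/-- the operator of a group element -/
noncomputable def A (g : K) : Ext (Finset α) →ₐ[ℤ] Ext (Finset α) := GH (im (ρ g))

omit [Fintype α] [Fintype K] in
lemma A_mul (g h : K) (x : Ext (Finset α)) : A ρ g (A ρ h x) = A ρ (g * h) x := by
  unfold A
  rw [GH_GH]
  congr 2
  funext e
  rw [Function.comp_apply, im_im, map_mul]
  rfl

/-- signed average -/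
noncomputable def N : Ext (Finset α) →ₗ[ℤ] Ext (Finset α) :=
  ∑ g : K, ((χ g : ℤˣ) : ℤ) • (A ρ g).toLinearMap

omit [Fintype α] in
lemma N_apply (x : Ext (Finset α)) : N ρ χ x = ∑ g : K, ((χ g : ℤˣ) : ℤ) • A ρ g x := by
  unfold N
  rw [LinearMap.sum_apply]
  rfl

lemma usq (u : ℤˣ) : ((u : ℤˣ) : ℤ) * ((u : ℤˣ) : ℤ) = 1 := by
  rcases Int.units_eq_one_or u with h | h <;> simp [h]

omit [Fintype α] in
lemma N_A (h : K) (x : Ext (Finset α)) : N ρ χ (A ρ h x) = ((χ h : ℤˣ) : ℤ) • N ρ χ x := by
  rw [N_apply, N_apply, Finset.smul_sum]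
  rw [← Equiv.sum_comp (Equiv.mulRight h) (fun g => ((χ h : ℤˣ) : ℤ) • ((χ g : ℤˣ) : ℤ) • A ρ g x)]
  refine Finset.sum_congr rfl (fun g _ => ?_)
  rw [Equiv.coe_mulRight, A_mul, map_mul, Units.val_mul, smul_smul]
  congr 1
  have := usq (χ h)
  linear_combination (-((χ g : ℤˣ) : ℤ)) * this

omit [Fintype α] in
lemma A_N (h : K) (x : Ext (Finset α)) : A ρ h (N ρ χ x) = ((χ h : ℤˣ) : ℤ) • N ρ χ x := by
  rw [N_apply, Finset.smul_sum, map_sum]
  rw [← Equiv.sum_comp (Equiv.mulLeft h) (fun g => ((χ h : ℤˣ) : ℤ) • ((χ g : ℤˣ) : ℤ) • A ρ g x)]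
  refine Finset.sum_congr rfl (fun g _ => ?_)
  rw [Equiv.coe_mulLeft, map_smul, A_mul, map_mul, Units.val_mul, smul_smul]
  congr 1
  have := usq (χ h)
  linear_combination (-((χ g : ℤˣ) : ℤ)) * this

omit [Fintype α] in
lemma bd_N (x : Ext (Finset α)) : bd (N ρ χ x) = N ρ χ (bd x) := by
  rw [N_apply, N_apply, map_sum]
  refine Finset.sum_congr rfl (fun g _ => ?_)
  rw [map_smul]
  congr 1
  exact bd_GH _ _

lemma ML_im {g : α → α} (hg : Function.Injective g) {l : List (Finset α)}
    (h : ML Finset.univ l) : ML Finset.univ (l.map (im g)) := by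
  refine ⟨?_, ?_⟩
  · intro e he
    rw [List.mem_map] at he
    obtain ⟨e', he', rfl⟩ := he
    refine ⟨?_, Finset.subset_univ _⟩
    unfold im
    rw [Finset.card_image_of_injective _ hg]
    exact (h.1 e' he').1
  · rw [List.pairwise_map]
    refine h.2.imp ?_
    intro e e' hee
    exact (Finset.disjoint_image hg).2 hee

lemma A_MC {k : ℕ} (g : K) {x : Ext (Finset α)} (hx : x ∈ MC (Finset.univ : Finset α) k) :
    A ρ g x ∈ MC (Finset.univ : Finset α) k := by
  refine spn_ind (A ρ g).toLinearMap _ ?_ hx
  rintro l ⟨hl, hlen⟩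
  show A ρ g (simplex l) ∈ _
  unfold A
  rw [GH_simplex]
  exact mem_spn ⟨ML_im (ρ g).injective hl, by simp [hlen]⟩

lemma N_MC {k : ℕ} {x : Ext (Finset α)} (hx : x ∈ MC (Finset.univ : Finset α) k) :
    N ρ χ x ∈ MC (Finset.univ : Finset α) k := by
  rw [N_apply]
  refine Submodule.sum_mem _ (fun g _ => Submodule.smul_mem _ _ (A_MC ρ g hx))

omit [Fintype α] in
lemma B_A (g : K) (x y : Ext (Finset α)) : B (A ρ g x) (A ρ g y) = B x y :=
  B_GH _ (im_inj (ρ g).injective) x y

omit [Fintype α] in
lemma B_N_N (x y : Ext (Finset α)) :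
    B (N ρ χ x) (N ρ χ y) = (Fintype.card K : ℤ) * B x (N ρ χ y) := by
  have h1 : B (N ρ χ x) (N ρ χ y) = ∑ g : K, B x (N ρ χ y) := by
    rw [← Bl_apply, N_apply ρ χ x, map_sum]
    refine Finset.sum_congr rfl (fun g _ => ?_)
    rw [map_smul, Bl_apply]
    have h2 : N ρ χ y = ((χ g : ℤˣ) : ℤ) • A ρ g (N ρ χ y) := by
      rw [A_N, smul_smul, usq, one_smul]
    rw [h2, B_smul_right, B_A, ← h2, smul_eq_mul, ← mul_assoc, usq, one_mul]
  rw [h1, Finset.sum_const, Finset.card_univ, nsmul_eq_mul]

omit [Fintype α] in
lemma B_N_right (x y : Ext (Finset α)) :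
    B x (N ρ χ y) = ∑ g : K, ((χ g : ℤˣ) : ℤ) * B x (A ρ g y) := by
  rw [← Br_apply, N_apply, map_sum]
  refine Finset.sum_congr rfl (fun g _ => ?_)
  rw [map_smul, Br_apply, smul_eq_mul]

/-- the sum of all edges -/
noncomputable def om : Ext (Finset α) :=
  ∑ e ∈ (Finset.univ.filter (fun e : Finset α => e.card = 2)), gen e

lemma A_om (g : K) : A ρ g (om : Ext (Finset α)) = om := by
  unfold om A
  rw [map_sum]
  refine Finset.sum_bij (fun e _ => im (ρ g) e) ?_ ?_ ?_ ?_
  · intro e he
    rw [Finset.mem_filter] at he ⊢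
    refine ⟨Finset.mem_univ _, ?_⟩
    unfold im
    rw [Finset.card_image_of_injective _ (ρ g).injective]
    exact he.2
  · intro e _ e' _ h
    exact im_inj (ρ g).injective h
  · intro e he
    refine ⟨im (ρ g).symm e, ?_, ?_⟩
    · rw [Finset.mem_filter] at he ⊢
      refine ⟨Finset.mem_univ _, ?_⟩
      unfold im
      rw [Finset.card_image_of_injective _ (ρ g).symm.injective]
      exact he.2
    · rw [im_im]
      have : (ρ g : α → α) ∘ ((ρ g).symm : α → α) = id := by
        funext x; simp
      rw [this]
      exact Finset.image_id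
  · intro e _
    rw [GH_gen]

lemma om_N (x : Ext (Finset α)) : om * N ρ χ x = N ρ χ (om * x) := by
  rw [N_apply, N_apply, Finset.mul_sum]
  refine Finset.sum_congr rfl (fun g _ => ?_)
  rw [mul_smul_comm, map_mul, A_om]

/-- adjunction between the boundary and multiplication by the sum of all edges -/
lemma B_bd {k : ℕ} {x y : Ext (Finset α)} (hx : x ∈ MC (Finset.univ : Finset α) k)
    (hy : y ∈ MC (Finset.univ : Finset α) (k + 1)) :
    B x (bd y) = (-1 : ℤ) ^ k * B (om * x) y := by
  have h1 : ∀ l : List (Finset α), l.length = k → ∀ l' : List (Finset α),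
      ML Finset.univ l' → l'.length = k + 1 →
      B (simplex l) (bd (simplex l')) = (-1 : ℤ) ^ k * B (om * simplex l) (simplex l') := by
    intro l hl l' hl' hlen
    unfold B
    rw [C_bd, hl, map_smul, smul_eq_mul, map_mul, Module.End.mul_apply]
    congr 1
    rcases C_mem l l' hl'.nodup with h0 | ⟨s, l'', h2, h3, -, h5, h6⟩
    · rw [h0, map_zero, map_zero, map_zero, map_zero]
    · rw [h6, map_smul, map_smul, map_smul, map_smul]
      congr 1
      have hone : l''.length = 1 := by omega
      obtain ⟨e0, rfl⟩ := List.length_eq_one_iff.1 hone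
      have he0 : e0.card = 2 := (hl'.1 e0 (h3 (List.mem_singleton.2 rfl))).1
      have e1 : bd (simplex [e0]) = 1 := by
        rw [simplex_cons, bd_gen_mul, simplex_nil, bd_one, mul_zero, sub_zero]
      rw [e1, eps_one]
      unfold om
      rw [map_sum, LinearMap.sum_apply, map_sum, Finset.sum_eq_single e0]
      · rw [C_gen, simplex_cons, co_gen_mul, if_pos rfl, simplex_nil, co_one, mul_zero, sub_zero,
          eps_one]
      · intro e _ hne
        rw [C_gen, simplex_cons, co_gen_mul, if_neg (Ne.symm hne), simplex_nil, co_one, mul_zero,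
          sub_zero, map_zero]
      · intro h
        exfalso
        exact h (Finset.mem_filter.2 ⟨Finset.mem_univ _, he0⟩)
  have h2 : ∀ l : List (Finset α), l.length = k →
      B (simplex l) (bd y) = (-1 : ℤ) ^ k * B (om * simplex l) y := by
    intro l hl
    have := spn_ext (Br (simplex l) ∘ₗ bd) ((-1 : ℤ) ^ k • Br (om * simplex l)) (fun l' hl' => by
      show B (simplex l) (bd (simplex l')) = (-1 : ℤ) ^ k * B (om * simplex l) (simplex l')
      exact h1 l hl l' hl'.1 hl'.2) hy
    exact this
  have := spn_ext (Bl (bd y)) ((-1 : ℤ) ^ k • (Bl y ∘ₗ LinearMap.mulLeft ℤ om)) (fun l hl => by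
      show B (simplex l) (bd y) = (-1 : ℤ) ^ k * B (om * simplex l) y
      exact h2 l hl.2) hx
  exact this

/-- span of the lists which are not matchings -/
noncomputable def NM : Submodule ℤ (Ext (Finset α)) := spn (fun l => ¬ ML Finset.univ l)

lemma B_NM {k : ℕ} {x y : Ext (Finset α)} (hx : x ∈ (NM : Submodule ℤ (Ext (Finset α))))
    (hy : y ∈ MC (Finset.univ : Finset α) k) : B x y = 0 := by
  have h1 : ∀ l : List (Finset α), ¬ ML Finset.univ l → ∀ l' : List (Finset α),
      ML Finset.univ l' → B (simplex l) (simplex l') = 0 := by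
    intro l hl l' hl'
    by_contra hne
    have h2 := B_ne_zero hl'.nodup hne
    by_cases hn : l.Nodup
    · apply hl
      refine ⟨fun e he => hl'.1 e (h2 e he), ?_⟩
      refine List.Nodup.pairwise_of_forall_ne hn ?_
      intro e he f hf hef
      exact hl'.2.forall (h2 e he) (h2 f hf) hef
    · apply hne
      unfold B
      rw [simplex_not_nodup hn, map_zero, LinearMap.zero_apply, map_zero]
  have h2 : ∀ l : List (Finset α), ¬ ML Finset.univ l → B (simplex l) y = 0 := by
    intro l hl
    have := spn_ext (Br (simplex l)) 0 (fun l' hl' => by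
      rw [LinearMap.zero_apply]
      exact h1 l hl l' hl'.1) hy
    exact this
  have := spn_ext (Bl y) 0 (fun l hl => by
      rw [LinearMap.zero_apply]
      exact h2 l hl) hx
  exact this

lemma A_NM (g : K) {x : Ext (Finset α)} (hx : x ∈ (NM : Submodule ℤ (Ext (Finset α)))) :
    A ρ g x ∈ (NM : Submodule ℤ (Ext (Finset α))) := by
  refine spn_ind (A ρ g).toLinearMap _ ?_ hx
  intro l hl
  show A ρ g (simplex l) ∈ _
  unfold A
  rw [GH_simplex]
  refine mem_spn (fun h => hl ?_)
  have h2 := ML_im (ρ g).symm.injective h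
  rw [List.map_map] at h2
  have : im ((ρ g).symm : α → α) ∘ im (ρ g : α → α) = id := by
    funext e
    rw [Function.comp_apply, im_im]
    have : ((ρ g).symm : α → α) ∘ (ρ g : α → α) = id := by
      funext x; simp
    rw [this]
    exact Finset.image_id
  rw [this, List.map_id] at h2
  exact h2

lemma N_NM {x : Ext (Finset α)} (hx : x ∈ (NM : Submodule ℤ (Ext (Finset α)))) :
    N ρ χ x ∈ (NM : Submodule ℤ (Ext (Finset α))) := by
  rw [N_apply]
  refine Submodule.sum_mem _ (fun g _ => Submodule.smul_mem _ _ (A_NM ρ g hx))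

end avg

end Pool.Agent.W5h13.FT
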