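import Mathlib
import Pool.Agent.W5h13.FT2

/-!
Computations with lists of pairs of points.
-/

set_option autoImplicit false

namespace Pool.Agent.W5h13.FT

open Pool.Agent.H742R3.Mat

section lists
variable {α : Type} [DecidableEq α]

/-- the edge belonging to a pair of points -/
def ed (p : α × α) : Finset α := {p.1, p.2}

/-- simplex of a list of pairs -/
noncomputable def sx (l : List (α × α)) : Ext (Finset α) := simplex (l.map ed)

variable (code : α → ℕ)

/-- sort a pair -/
def ord (p : α × α) : α × α := if code p.1 ≤ code p.2 then p else (p.2, p.1)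

/-- insert a pair, with sign -/
def ins (p : α × α) : List (α × α) → ℤ × List (α × α)
  | [] => (1, [p])
  | r :: l => if code p.1 ≤ code r.1 then (1, p :: r :: l) else (-(ins p l).1, r :: (ins p l).2)

/-- sort a list of pairs, with sign -/
def norm : List (α × α) → ℤ × List (α × α)
  | [] => (1, [])
  | p :: l => ((norm l).1 * (ins code (ord code p) (norm l).2).1,
      (ins code (ord code p) (norm l).2).2)

lemma ed_ord (p : α × α) : ed (ord code p) = ed p := by
  unfold ord
  split_ifs
  · rfl
  · exact Finset.pair_comm _ _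

omit code in
lemma sx_cons (p : α × α) (l : List (α × α)) : sx (p :: l) = gen (ed p) * sx l := by
  unfold sx
  rw [List.map_cons, simplex_cons]

lemma sx_ins (p : α × α) (l : List (α × α)) :
    gen (ed p) * sx l = (ins code p l).1 • sx (ins code p l).2 := by
  induction l with
  | nil => simp [ins, sx]
  | cons r l ih =>
    unfold ins
    split_ifs
    · rw [one_smul, sx_cons p]
    · rw [sx_cons, ← mul_assoc, gen_swap, neg_mul, mul_assoc, ih, sx_cons, mul_smul_comm,
        neg_smul]

lemma sx_norm (l : List (α × α)) : sx l = (norm code l).1 • sx (norm code l).2 := by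
  induction l with
  | nil => simp [norm]
  | cons p l ih =>
    show sx (p :: l) = ((norm code l).1 * (ins code (ord code p) (norm code l).2).1) •
      sx (ins code (ord code p) (norm code l).2).2
    rw [sx_cons, ih, mul_smul_comm, ← ed_ord code p, sx_ins code, smul_smul]

/-- the boundary, on lists -/
def faces : List (α × α) → List (ℤ × List (α × α))
  | [] => []
  | p :: l => (1, l) :: (faces l).map (fun r => (-r.1, p :: r.2))

omit code in
lemma bd_sx (l : List (α × α)) : bd (sx l) = ((faces l).map (fun r => r.1 • sx r.2)).sum := by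
  induction l with
  | nil => simp [faces, sx]
  | cons p l ih =>
    rw [sx_cons, bd_gen_mul, ih, faces, List.map_cons, List.sum_cons, List.map_map]
    have : ((fun r : ℤ × List (α × α) => r.1 • sx r.2) ∘
        fun r : ℤ × List (α × α) => (-r.1, p :: r.2)) =
        fun r => - (gen (ed p) * (r.1 • sx r.2)) := by
      funext r
      rw [Function.comp_apply, sx_cons, neg_smul, mul_smul_comm]
    rw [this, one_smul, sub_eq_add_neg]
    congr 1
    generalize faces l = m
    induction m with
    | nil => simp
    | cons r m ihm =>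
      rw [List.map_cons, List.map_cons, List.sum_cons, List.sum_cons, mul_add, neg_add, ihm]

variable {K : Type} [Group K] (ρ : K →* Equiv.Perm α) (χ : K →* ℤˣ)

/-- action on pairs -/
def act2 (g : K) (p : α × α) : α × α := (ρ g p.1, ρ g p.2)

omit code χ in
lemma A_sx (g : K) (l : List (α × α)) : A ρ g (sx l) = sx (l.map (act2 ρ g)) := by
  unfold A sx
  rw [GH_simplex, List.map_map, List.map_map]
  congr 2
  funext p
  simp [im, ed, act2, Finset.image_insert]

variable [Fintype K]

lemma rel (g : K) (l : List (α × α)) (s : ℤ) (l' : List (α × α)) (c : ℤ)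
    (h : norm code (l.map (act2 ρ g)) = (s, l')) (hc : ((χ g : ℤˣ) : ℤ) * s = c) :
    N ρ χ (sx l) = c • N ρ χ (sx l') := by
  have h1 : N ρ χ (A ρ g (sx l)) = ((χ g : ℤˣ) : ℤ) • N ρ χ (sx l) := N_A ρ χ g (sx l)
  rw [A_sx, sx_norm code (l.map (act2 ρ g)), h] at h1
  have h2 := congrArg (fun y => ((χ g : ℤˣ) : ℤ) • y) h1
  beta_reduce at h2
  rw [smul_smul, usq, one_smul, map_smul, smul_smul, hc] at h2
  exact h2.symm

omit [DecidableEq α] [Group K] [Fintype K] code ρ χ in
lemma tors {V : Type} (x : Ext V) (h : x = - x) : x = 0 := by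
  classical
  let _ : LinearOrder V := linearOrderOfSTO (WellOrderingRel)
  apply (toExt (V := V)).symm.injective
  rw [map_zero]
  have h2 := congrArg (toExt (V := V)).symm h
  rw [map_neg] at h2
  ext σ
  have h3 := DFunLike.congr_fun h2 σ
  rw [Finsupp.neg_apply] at h3
  rw [Finsupp.zero_apply]
  omega

lemma kill (g : K) (l : List (α × α)) (s s0 : ℤ) (l0 : List (α × α))
    (h : norm code (l.map (act2 ρ g)) = (s, l0)) (h0 : norm code l = (s0, l0))
    (hc : ((χ g : ℤˣ) : ℤ) * s = - s0) : N ρ χ (sx l) = 0 := by
  have h1 := rel code ρ χ g l s l0 _ h hc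
  have h2 : N ρ χ (sx l) = s0 • N ρ χ (sx l0) := by
    rw [sx_norm code l, h0, map_smul]
  apply tors
  rw [neg_smul, ← h2] at h1
  exact h1

/-- if every edge of `α` is in `F` or meets an edge of the list `R` then `om * sx R` is a sum over
`F` plus non-matchings -/
lemma om_sx [Fintype α] (R F : List (α × α)) (hF : (F.map ed).Nodup)
    (hF2 : ∀ p ∈ F, p.1 ≠ p.2)
    (h : ∀ a b : α, a ≠ b → ed (a, b) ∈ F.map ed ∨ ∃ p ∈ R, ¬ Disjoint (ed (a, b)) (ed p)) :
    om * sx R - (F.map (fun p => sx (p :: R))).sum ∈ (NM : Submodule ℤ (Ext (Finset α))) := by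
  have h1 : (F.map (fun p => sx (p :: R))).sum = ∑ e ∈ (F.map ed).toFinset, gen e * sx R := by
    rw [List.sum_toFinset _ hF, List.map_map]
    refine congrArg List.sum (List.map_congr_left ?_)
    intro p _
    rw [Function.comp_apply, sx_cons]
  have h2 : (F.map ed).toFinset ⊆ Finset.univ.filter (fun e : Finset α => e.card = 2) := by
    intro e he
    rw [List.mem_toFinset, List.mem_map] at he
    obtain ⟨p, hp, rfl⟩ := he
    rw [Finset.mem_filter]
    exact ⟨Finset.mem_univ _, Finset.card_pair (hF2 p hp)⟩
  rw [h1, om, Finset.sum_mul, ← Finset.sum_sdiff h2, add_sub_cancel_right]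
  apply Submodule.sum_mem
  intro e he
  rw [Finset.mem_sdiff, Finset.mem_filter] at he
  obtain ⟨a, b, hab, rfl⟩ := Finset.card_eq_two.1 he.1.2
  rcases h a b hab with h3 | ⟨p, hp, h3⟩
  · exact absurd (List.mem_toFinset.2 h3) he.2
  · unfold sx
    rw [← simplex_cons]
    refine mem_spn (fun h4 => h3 ?_)
    rw [ML_cons] at h4
    exact h4.2.1 _ (List.mem_map_of_mem hp)

end lists

section self
variable {V : Type} [DecidableEq V]

lemma C_gen_mul (l : List V) (v : V) (hv : v ∉ l) (x : Ext V) :
    C (simplex l) (gen v * x) = (-1 : ℤ) ^ l.length • (gen v * C (simplex l) x) := by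
  induction l with
  | nil => rw [C_nil, C_nil]; simp
  | cons u l ih =>
    rw [List.mem_cons, not_or] at hv
    rw [C_cons, ih hv.2, map_smul, co_gen_mul, if_neg hv.1, zero_sub, C_cons, List.length_cons,
      pow_succ, mul_neg_one, neg_smul, smul_neg]

lemma C_self (l : List V) (hl : l.Nodup) :
    C (simplex l) (simplex l) = 1 ∨ C (simplex l) (simplex l) = -1 := by
  induction l with
  | nil => left; rw [C_nil, simplex_nil]
  | cons v l ih =>
    rw [List.nodup_cons] at hl
    rw [C_cons, simplex_cons, C_gen_mul l v hl.1, map_smul, co_gen_mul, if_pos rfl]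
    rcases ih hl.2 with h | h <;> rw [h] <;>
      rcases neg_one_pow_eq_or ℤ l.length with h' | h' <;> rw [h'] <;> simp

lemma B_self (l : List V) (hl : l.Nodup) :
    B (simplex l) (simplex l) = 1 ∨ B (simplex l) (simplex l) = -1 := by
  unfold B
  rcases C_self l hl with h | h <;> rw [h]
  · left; exact eps_one
  · right; rw [map_neg, eps_one]

end self

end Pool.Agent.W5h13.FT
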