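import Mathlib
import Pool.Agent.W5h13.FT3

/-!
The `5`-torsion certificate for `H_4 (M_14)`: the group `(S₃ ≀ S₄) × S₂` acting on `14` points, with
the character which is the sign on the four factors `S₃` and trivial on `S₄` and `S₂`.
-/

set_option autoImplicit false

namespace Pool.Agent.W5h13.FT

open Pool.Agent.H742R3.Mat

/-- the 14 points: four blocks of three points and one block of two points -/
def Pt : Type := (Fin 4 × Fin 3) ⊕ Fin 2

instance : DecidableEq Pt := inferInstanceAs (DecidableEq ((Fin 4 × Fin 3) ⊕ Fin 2))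

instance : Fintype Pt := inferInstanceAs (Fintype ((Fin 4 × Fin 3) ⊕ Fin 2))

/-- a point in a block of three points -/
def bl (i : Fin 4) (t : Fin 3) : Pt := Sum.inl (i, t)

/-- a point in the block of two points -/
def br (s : Fin 2) : Pt := Sum.inr s

/-- number of a point -/
def code : Pt → ℕ
  | Sum.inl (i, t) => 3 * i.val + t.val
  | Sum.inr s => 12 + s.val

/-- point with a number -/
def pt (n : ℕ) : Pt :=
  if n < 12 then bl (Fin.ofNat 4 (n / 3)) (Fin.ofNat 3 n) else br (Fin.ofNat 2 n)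

/-- pair of points -/
def q (a b : ℕ) : Pt × Pt := (pt a, pt b)

/-- the group `S₃ ≀ S₄` -/
abbrev H4 : Type := (Fin 4 → Equiv.Perm (Fin 3)) ⋊[mulAutArrow] Equiv.Perm (Fin 4)

/-- the group `(S₃ ≀ S₄) × S₂` -/
def KK : Type := H4 × Equiv.Perm (Fin 2)

instance : Group KK := inferInstanceAs (Group (H4 × Equiv.Perm (Fin 2)))

noncomputable instance : Fintype H4 := Fintype.ofEquiv _ SemidirectProduct.equivProd.symm

noncomputable instance : Fintype KK := inferInstanceAs (Fintype (H4 × Equiv.Perm (Fin 2)))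

lemma card_KK : Fintype.card KK = 62208 := by
  show Fintype.card (H4 × Equiv.Perm (Fin 2)) = 62208
  rw [Fintype.card_prod, Fintype.card_congr SemidirectProduct.equivProd, Fintype.card_prod,
    Fintype.card_pi]
  simp [Fintype.card_perm, Nat.factorial]

/-- the element of the group with given components -/
def gg (k0 k1 k2 k3 : Equiv.Perm (Fin 3)) (h : Equiv.Perm (Fin 4)) (e : Equiv.Perm (Fin 2)) : KK :=
  (⟨![k0, k1, k2, k3], h⟩, e)

/-- the action on points -/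
def actF (g : KK) : Pt → Pt
  | Sum.inl (i, t) => bl (g.1.right i) (g.1.left (g.1.right i) t)
  | Sum.inr s => br (g.2 s)

lemma actF_mul (g h : KK) (x : Pt) : actF (g * h) x = actF g (actF h x) := by
  rcases x with ⟨i, t⟩ | s
  · show bl ((g.1 * h.1).right i) ((g.1 * h.1).left ((g.1 * h.1).right i) t) = _
    simp only [actF, SemidirectProduct.mul_right, SemidirectProduct.mul_left,
      Equiv.Perm.mul_apply, Pi.mul_apply]
    show bl (g.1.right (h.1.right i)) ((g.1.left (g.1.right (h.1.right i)))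
      ((h.1.left (g.1.right.symm (g.1.right (h.1.right i)))) t)) = _
    rw [Equiv.symm_apply_apply]
    rfl
  · rfl

lemma actF_one (x : Pt) : actF (1 : KK) x = x := by
  rcases x with ⟨i, t⟩ | s <;> rfl

/-- the action on points, as a homomorphism -/
def rho : KK →* Equiv.Perm Pt where
  toFun g := ⟨actF g, actF g⁻¹, fun x => by rw [← actF_mul, inv_mul_cancel, actF_one],
    fun x => by rw [← actF_mul, mul_inv_cancel, actF_one]⟩
  map_one' := by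
    apply Equiv.ext
    intro x
    exact actF_one x
  map_mul' g h := by
    apply Equiv.ext
    intro x
    exact actF_mul g h x

/-- the character -/
def chi : KK →* ℤˣ where
  toFun g := ∏ i, Equiv.Perm.sign (g.1.left i)
  map_one' := by
    show ∏ i, Equiv.Perm.sign ((1 : H4).left i) = 1
    simp
  map_mul' g h := by
    show ∏ i, Equiv.Perm.sign (g.1.left i * h.1.left (g.1.right⁻¹ i)) = _
    simp only [map_mul]
    rw [Finset.prod_mul_distrib]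
    congr 1
    exact Equiv.prod_comp (g.1.right⁻¹) (fun i => Equiv.Perm.sign (h.1.left i))

def F4 : List (Pt × Pt) := [q 2 5, q 2 8, q 2 11, q 5 8, q 5 11, q 8 11]
def F3 : List (Pt × Pt) := [q 2 5, q 2 8, q 2 11, q 5 8, q 5 11, q 8 11]
def F2 : List (Pt × Pt) := [q 5 8, q 5 11, q 5 13, q 8 11, q 8 13, q 11 13]
def F1 : List (Pt × Pt) := [q 5 8, q 5 11, q 5 13, q 8 11, q 8 13, q 11 13]
def R1 : List (Pt × Pt) := [q 0 3, q 1 6, q 2 9, q 4 7, q 10 12]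
def R2 : List (Pt × Pt) := [q 0 3, q 1 6, q 2 12, q 4 9, q 7 10]
def R3 : List (Pt × Pt) := [q 0 3, q 1 6, q 4 7, q 9 12, q 10 13]
def R4 : List (Pt × Pt) := [q 0 3, q 1 6, q 4 9, q 7 12, q 10 13]
def R0 : List (Pt × Pt) := [q 0 3, q 1 6, q 2 9, q 4 7, q 5 10]
def T1 : List (Pt × Pt) := [q 0 3, q 1 6, q 2 9, q 4 7, q 5 10, q 8 12]
def T2 : List (Pt × Pt) := [q 0 3, q 1 6, q 2 9, q 4 7, q 5 10, q 12 13]
def T3 : List (Pt × Pt) := [q 0 3, q 1 6, q 2 9, q 4 7, q 5 12, q 10 13]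
def T4 : List (Pt × Pt) := [q 0 3, q 1 6, q 2 9, q 4 7, q 10 12, q 11 13]
def T5 : List (Pt × Pt) := [q 0 3, q 1 6, q 2 12, q 4 9, q 5 13, q 7 10]

set_option maxRecDepth 100000 in
lemma bdT1 : N rho chi (bd (sx T1)) = -N rho chi (sx R0) - (2 : ℤ) • N rho chi (sx R1) - N rho chi (sx R2) := by
  have h0 : N rho chi (sx [q 1 6, q 2 9, q 4 7, q 5 10, q 8 12]) = (-1 : ℤ) • N rho chi (sx R2) :=
    rel code rho chi (gg (1) (Equiv.swap 0 2 * Equiv.swap 1 2) (Equiv.swap 0 2 * Equiv.swap 1 2) (1) (Equiv.swap 0 1 * Equiv.swap 1 2) (1)) [q 1 6, q 2 9, q 4 7, q 5 10, q 8 12] (-1) R2 (-1) (by decide) (by decide)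
  have h1 : N rho chi (sx [q 0 3, q 2 9, q 4 7, q 5 10, q 8 12]) = (1 : ℤ) • N rho chi (sx R1) :=
    rel code rho chi (gg (Equiv.swap 1 2) (Equiv.swap 1 2) (Equiv.swap 0 1) (Equiv.swap 0 2 * Equiv.swap 1 2) (Equiv.swap 0 1 * Equiv.swap 2 3) (1)) [q 0 3, q 2 9, q 4 7, q 5 10, q 8 12] (-1) R1 (1) (by decide) (by decide)
  have h2 : N rho chi (sx [q 0 3, q 1 6, q 4 7, q 5 10, q 8 12]) = 0 :=
    kill code rho chi (gg (1) (1) (1) (Equiv.swap 0 2) (1) (1)) [q 0 3, q 1 6, q 4 7, q 5 10, q 8 12] (1) (1) [q 0 3, q 1 6, q 4 7, q 5 10, q 8 12] (by decide) (by decide) (by decide)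
  have h3 : N rho chi (sx [q 0 3, q 1 6, q 2 9, q 5 10, q 8 12]) = (1 : ℤ) • N rho chi (sx R1) :=
    rel code rho chi (gg (Equiv.swap 1 2) (Equiv.swap 1 2) (1) (Equiv.swap 1 2) (Equiv.swap 2 3) (1)) [q 0 3, q 1 6, q 2 9, q 5 10, q 8 12] (-1) R1 (1) (by decide) (by decide)
  have h4 : N rho chi (sx [q 0 3, q 1 6, q 2 9, q 4 7, q 8 12]) = 0 :=
    kill code rho chi (gg (1) (1) (1) (Equiv.swap 1 2) (1) (1)) [q 0 3, q 1 6, q 2 9, q 4 7, q 8 12] (1) (1) [q 0 3, q 1 6, q 2 9, q 4 7, q 8 12] (by decide) (by decide) (by decide)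
  have h5 : N rho chi (sx [q 0 3, q 1 6, q 2 9, q 4 7, q 5 10]) = (1 : ℤ) • N rho chi (sx R0) :=
    rel code rho chi (gg (1) (1) (1) (1) (1) (1)) [q 0 3, q 1 6, q 2 9, q 4 7, q 5 10] (1) R0 (1) (by decide) (by decide)
  rw [bd_sx]
  simp only [T1, faces, List.map_cons, List.map_nil, List.sum_cons, List.sum_nil, map_add, map_smul, map_zero, h0, h1, h2, h3, h4, h5]
  module

set_option maxRecDepth 100000 in
lemma bdT2 : N rho chi (bd (sx T2)) = -N rho chi (sx R0) := by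
  have h0 : N rho chi (sx [q 1 6, q 2 9, q 4 7, q 5 10, q 12 13]) = 0 :=
    kill code rho chi (gg (Equiv.swap 0 1 * Equiv.swap 1 2) (Equiv.swap 0 1 * Equiv.swap 1 2) (Equiv.swap 0 2 * Equiv.swap 1 2) (Equiv.swap 0 2 * Equiv.swap 1 2) (Equiv.swap 0 2 * Equiv.swap 1 3) (1)) [q 1 6, q 2 9, q 4 7, q 5 10, q 12 13] (-1) (1) [q 1 6, q 2 9, q 4 7, q 5 10, q 12 13] (by decide) (by decide) (by decide)
  have h1 : N rho chi (sx [q 0 3, q 2 9, q 4 7, q 5 10, q 12 13]) = 0 :=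
    kill code rho chi (gg (1) (1) (Equiv.swap 0 2) (1) (1) (1)) [q 0 3, q 2 9, q 4 7, q 5 10, q 12 13] (1) (1) [q 0 3, q 2 9, q 4 7, q 5 10, q 12 13] (by decide) (by decide) (by decide)
  have h2 : N rho chi (sx [q 0 3, q 1 6, q 4 7, q 5 10, q 12 13]) = 0 :=
    kill code rho chi (gg (1) (1) (1) (Equiv.swap 0 2) (1) (1)) [q 0 3, q 1 6, q 4 7, q 5 10, q 12 13] (1) (1) [q 0 3, q 1 6, q 4 7, q 5 10, q 12 13] (by decide) (by decide) (by decide)
  have h3 : N rho chi (sx [q 0 3, q 1 6, q 2 9, q 5 10, q 12 13]) = 0 :=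
    kill code rho chi (gg (1) (1) (Equiv.swap 1 2) (1) (1) (1)) [q 0 3, q 1 6, q 2 9, q 5 10, q 12 13] (1) (1) [q 0 3, q 1 6, q 2 9, q 5 10, q 12 13] (by decide) (by decide) (by decide)
  have h4 : N rho chi (sx [q 0 3, q 1 6, q 2 9, q 4 7, q 12 13]) = 0 :=
    kill code rho chi (gg (1) (1) (1) (Equiv.swap 1 2) (1) (1)) [q 0 3, q 1 6, q 2 9, q 4 7, q 12 13] (1) (1) [q 0 3, q 1 6, q 2 9, q 4 7, q 12 13] (by decide) (by decide) (by decide)
  have h5 : N rho chi (sx [q 0 3, q 1 6, q 2 9, q 4 7, q 5 10]) = (1 : ℤ) • N rho chi (sx R0) :=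
    rel code rho chi (gg (1) (1) (1) (1) (1) (1)) [q 0 3, q 1 6, q 2 9, q 4 7, q 5 10] (1) R0 (1) (by decide) (by decide)
  rw [bd_sx]
  simp only [T2, faces, List.map_cons, List.map_nil, List.sum_cons, List.sum_nil, map_add, map_smul, map_zero, h0, h1, h2, h3, h4, h5]
  module

set_option maxRecDepth 100000 in
lemma bdT3 : N rho chi (bd (sx T3)) = N rho chi (sx R1) - N rho chi (sx R4) := by
  have h0 : N rho chi (sx [q 1 6, q 2 9, q 4 7, q 5 12, q 10 13]) = (-1 : ℤ) • N rho chi (sx R4) :=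
    rel code rho chi (gg (1) (Equiv.swap 0 2 * Equiv.swap 1 2) (Equiv.swap 0 2 * Equiv.swap 1 2) (1) (Equiv.swap 0 1 * Equiv.swap 1 2) (1)) [q 1 6, q 2 9, q 4 7, q 5 12, q 10 13] (-1) R4 (-1) (by decide) (by decide)
  have h1 : N rho chi (sx [q 0 3, q 2 9, q 4 7, q 5 12, q 10 13]) = 0 :=
    kill code rho chi (gg (1) (1) (Equiv.swap 0 2) (1) (1) (1)) [q 0 3, q 2 9, q 4 7, q 5 12, q 10 13] (1) (1) [q 0 3, q 2 9, q 4 7, q 5 12, q 10 13] (by decide) (by decide) (by decide)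
  have h2 : N rho chi (sx [q 0 3, q 1 6, q 4 7, q 5 12, q 10 13]) = 0 :=
    kill code rho chi (gg (1) (1) (1) (Equiv.swap 0 2) (1) (1)) [q 0 3, q 1 6, q 4 7, q 5 12, q 10 13] (1) (1) [q 0 3, q 1 6, q 4 7, q 5 12, q 10 13] (by decide) (by decide) (by decide)
  have h3 : N rho chi (sx [q 0 3, q 1 6, q 2 9, q 5 12, q 10 13]) = 0 :=
    kill code rho chi (gg (1) (1) (Equiv.swap 1 2) (1) (1) (1)) [q 0 3, q 1 6, q 2 9, q 5 12, q 10 13] (1) (1) [q 0 3, q 1 6, q 2 9, q 5 12, q 10 13] (by decide) (by decide) (by decide)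
  have h4 : N rho chi (sx [q 0 3, q 1 6, q 2 9, q 4 7, q 10 13]) = (1 : ℤ) • N rho chi (sx R1) :=
    rel code rho chi (gg (1) (1) (1) (1) (1) (Equiv.swap 0 1)) [q 0 3, q 1 6, q 2 9, q 4 7, q 10 13] (1) R1 (1) (by decide) (by decide)
  have h5 : N rho chi (sx [q 0 3, q 1 6, q 2 9, q 4 7, q 5 12]) = 0 :=
    kill code rho chi (gg (1) (1) (1) (Equiv.swap 1 2) (1) (1)) [q 0 3, q 1 6, q 2 9, q 4 7, q 5 12] (1) (1) [q 0 3, q 1 6, q 2 9, q 4 7, q 5 12] (by decide) (by decide) (by decide)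
  rw [bd_sx]
  simp only [T3, faces, List.map_cons, List.map_nil, List.sum_cons, List.sum_nil, map_add, map_smul, map_zero, h0, h1, h2, h3, h4, h5]
  module

set_option maxRecDepth 100000 in
lemma bdT5 : N rho chi (bd (sx T5)) = (2 : ℤ) • N rho chi (sx R2) - N rho chi (sx R4) := by
  have h0 : N rho chi (sx [q 1 6, q 2 12, q 4 9, q 5 13, q 7 10]) = (-1 : ℤ) • N rho chi (sx R4) :=
    rel code rho chi (gg (Equiv.swap 0 1) (Equiv.swap 0 1) (Equiv.swap 0 2 * Equiv.swap 1 2) (Equiv.swap 0 2 * Equiv.swap 1 2) (Equiv.swap 0 2 * Equiv.swap 1 3) (1)) [q 1 6, q 2 12, q 4 9, q 5 13, q 7 10] (-1) R4 (-1) (by decide) (by decide)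
  have h1 : N rho chi (sx [q 0 3, q 2 12, q 4 9, q 5 13, q 7 10]) = 0 :=
    kill code rho chi (gg (1) (1) (Equiv.swap 0 2) (1) (1) (1)) [q 0 3, q 2 12, q 4 9, q 5 13, q 7 10] (1) (1) [q 0 3, q 2 12, q 4 9, q 5 13, q 7 10] (by decide) (by decide) (by decide)
  have h2 : N rho chi (sx [q 0 3, q 1 6, q 4 9, q 5 13, q 7 10]) = (1 : ℤ) • N rho chi (sx R2) :=
    rel code rho chi (gg (1) (1) (1) (1) (Equiv.swap 0 1 * Equiv.swap 2 3) (Equiv.swap 0 1)) [q 0 3, q 1 6, q 4 9, q 5 13, q 7 10] (1) R2 (1) (by decide) (by decide)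
  have h3 : N rho chi (sx [q 0 3, q 1 6, q 2 12, q 5 13, q 7 10]) = 0 :=
    kill code rho chi (gg (1) (1) (1) (Equiv.swap 0 2) (1) (1)) [q 0 3, q 1 6, q 2 12, q 5 13, q 7 10] (1) (1) [q 0 3, q 1 6, q 2 12, q 5 13, q 7 10] (by decide) (by decide) (by decide)
  have h4 : N rho chi (sx [q 0 3, q 1 6, q 2 12, q 4 9, q 7 10]) = (1 : ℤ) • N rho chi (sx R2) :=
    rel code rho chi (gg (1) (1) (1) (1) (1) (1)) [q 0 3, q 1 6, q 2 12, q 4 9, q 7 10] (1) R2 (1) (by decide) (by decide)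
  have h5 : N rho chi (sx [q 0 3, q 1 6, q 2 12, q 4 9, q 5 13]) = 0 :=
    kill code rho chi (gg (1) (1) (1) (Equiv.swap 1 2) (1) (1)) [q 0 3, q 1 6, q 2 12, q 4 9, q 5 13] (1) (1) [q 0 3, q 1 6, q 2 12, q 4 9, q 5 13] (by decide) (by decide) (by decide)
  rw [bd_sx]
  simp only [T5, faces, List.map_cons, List.map_nil, List.sum_cons, List.sum_nil, map_add, map_smul, map_zero, h0, h1, h2, h3, h4, h5]
  module

set_option maxRecDepth 100000 in
lemma bdR4 : N rho chi (bd (sx R4)) = 0 := by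
  have h0 : N rho chi (sx [q 1 6, q 4 9, q 7 12, q 10 13]) = 0 :=
    kill code rho chi (gg (1) (Equiv.swap 0 2) (1) (1) (1) (1)) [q 1 6, q 4 9, q 7 12, q 10 13] (1) (1) [q 1 6, q 4 9, q 7 12, q 10 13] (by decide) (by decide) (by decide)
  have h1 : N rho chi (sx [q 0 3, q 4 9, q 7 12, q 10 13]) = 0 :=
    kill code rho chi (gg (1) (1) (Equiv.swap 0 2) (1) (1) (1)) [q 0 3, q 4 9, q 7 12, q 10 13] (1) (1) [q 0 3, q 4 9, q 7 12, q 10 13] (by decide) (by decide) (by decide)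
  have h2 : N rho chi (sx [q 0 3, q 1 6, q 7 12, q 10 13]) = 0 :=
    kill code rho chi (gg (1) (1) (1) (Equiv.swap 0 2) (1) (1)) [q 0 3, q 1 6, q 7 12, q 10 13] (1) (1) [q 0 3, q 1 6, q 7 12, q 10 13] (by decide) (by decide) (by decide)
  have h3 : N rho chi (sx [q 0 3, q 1 6, q 4 9, q 10 13]) = 0 :=
    kill code rho chi (gg (1) (1) (Equiv.swap 1 2) (1) (1) (1)) [q 0 3, q 1 6, q 4 9, q 10 13] (1) (1) [q 0 3, q 1 6, q 4 9, q 10 13] (by decide) (by decide) (by decide)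
  have h4 : N rho chi (sx [q 0 3, q 1 6, q 4 9, q 7 12]) = 0 :=
    kill code rho chi (gg (1) (1) (1) (Equiv.swap 1 2) (1) (1)) [q 0 3, q 1 6, q 4 9, q 7 12] (1) (1) [q 0 3, q 1 6, q 4 9, q 7 12] (by decide) (by decide) (by decide)
  rw [bd_sx]
  simp only [R4, faces, List.map_cons, List.map_nil, List.sum_cons, List.sum_nil, map_add, map_smul, map_zero, h0, h1, h2, h3, h4]
  module

set_option maxRecDepth 100000 in
lemma dual1 : N rho chi ((F1.map (fun p => sx (p :: R1))).sum) = (-2 : ℤ) • N rho chi (sx T1) + (2 : ℤ) • N rho chi (sx T3) + (-1 : ℤ) • N rho chi (sx T4) := by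
  have h0 : N rho chi (sx [q 5 8, q 0 3, q 1 6, q 2 9, q 4 7, q 10 12]) = 0 :=
    kill code rho chi (gg (1) (Equiv.swap 1 2) (Equiv.swap 1 2) (1) (1) (1)) [q 5 8, q 0 3, q 1 6, q 2 9, q 4 7, q 10 12] (-1) (1) [q 0 3, q 1 6, q 2 9, q 4 7, q 5 8, q 10 12] (by decide) (by decide) (by decide)
  have h1 : N rho chi (sx [q 5 11, q 0 3, q 1 6, q 2 9, q 4 7, q 10 12]) = (-1 : ℤ) • N rho chi (sx T1) :=
    rel code rho chi (gg (Equiv.swap 1 2) (Equiv.swap 1 2) (Equiv.swap 1 2) (1) (Equiv.swap 2 3) (1)) [q 5 11, q 0 3, q 1 6, q 2 9, q 4 7, q 10 12] (1) T1 (-1) (by decide) (by decide)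
  have h2 : N rho chi (sx [q 5 13, q 0 3, q 1 6, q 2 9, q 4 7, q 10 12]) = (1 : ℤ) • N rho chi (sx T3) :=
    rel code rho chi (gg (1) (1) (1) (1) (1) (Equiv.swap 0 1)) [q 5 13, q 0 3, q 1 6, q 2 9, q 4 7, q 10 12] (1) T3 (1) (by decide) (by decide)
  have h3 : N rho chi (sx [q 8 11, q 0 3, q 1 6, q 2 9, q 4 7, q 10 12]) = (-1 : ℤ) • N rho chi (sx T1) :=
    rel code rho chi (gg (Equiv.swap 0 2 * Equiv.swap 1 2) (Equiv.swap 1 2) (Equiv.swap 1 2) (1) (Equiv.swap 1 3 * Equiv.swap 2 3) (1)) [q 8 11, q 0 3, q 1 6, q 2 9, q 4 7, q 10 12] (-1) T1 (-1) (by decide) (by decide)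
  have h4 : N rho chi (sx [q 8 13, q 0 3, q 1 6, q 2 9, q 4 7, q 10 12]) = (1 : ℤ) • N rho chi (sx T3) :=
    rel code rho chi (gg (Equiv.swap 0 1) (1) (1) (1) (Equiv.swap 1 2) (Equiv.swap 0 1)) [q 8 13, q 0 3, q 1 6, q 2 9, q 4 7, q 10 12] (-1) T3 (1) (by decide) (by decide)
  have h5 : N rho chi (sx [q 11 13, q 0 3, q 1 6, q 2 9, q 4 7, q 10 12]) = (-1 : ℤ) • N rho chi (sx T4) :=
    rel code rho chi (gg (1) (1) (1) (1) (1) (1)) [q 11 13, q 0 3, q 1 6, q 2 9, q 4 7, q 10 12] (-1) T4 (-1) (by decide) (by decide)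
  simp only [F1, R1, List.map_cons, List.map_nil, List.sum_cons, List.sum_nil, map_add, map_zero, h0, h1, h2, h3, h4, h5]
  module

set_option maxRecDepth 100000 in
lemma dual2 : N rho chi ((F2.map (fun p => sx (p :: R2))).sum) = (-1 : ℤ) • N rho chi (sx T1) + (2 : ℤ) • N rho chi (sx T5) := by
  have h0 : N rho chi (sx [q 5 8, q 0 3, q 1 6, q 2 12, q 4 9, q 7 10]) = (-1 : ℤ) • N rho chi (sx T1) :=
    rel code rho chi (gg (Equiv.swap 0 1 * Equiv.swap 1 2) (Equiv.swap 0 1 * Equiv.swap 1 2) (1) (1) (Equiv.swap 0 2 * Equiv.swap 1 2) (1)) [q 5 8, q 0 3, q 1 6, q 2 12, q 4 9, q 7 10] (-1) T1 (-1) (by decide) (by decide)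
  have h1 : N rho chi (sx [q 5 11, q 0 3, q 1 6, q 2 12, q 4 9, q 7 10]) = 0 :=
    kill code rho chi (gg (1) (Equiv.swap 1 2) (1) (Equiv.swap 0 2) (1) (1)) [q 5 11, q 0 3, q 1 6, q 2 12, q 4 9, q 7 10] (-1) (1) [q 0 3, q 1 6, q 2 12, q 4 9, q 5 11, q 7 10] (by decide) (by decide) (by decide)
  have h2 : N rho chi (sx [q 5 13, q 0 3, q 1 6, q 2 12, q 4 9, q 7 10]) = (1 : ℤ) • N rho chi (sx T5) :=
    rel code rho chi (gg (1) (1) (1) (1) (1) (1)) [q 5 13, q 0 3, q 1 6, q 2 12, q 4 9, q 7 10] (1) T5 (1) (by decide) (by decide)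
  have h3 : N rho chi (sx [q 8 11, q 0 3, q 1 6, q 2 12, q 4 9, q 7 10]) = 0 :=
    kill code rho chi (gg (1) (1) (Equiv.swap 1 2) (Equiv.swap 1 2) (1) (1)) [q 8 11, q 0 3, q 1 6, q 2 12, q 4 9, q 7 10] (1) (-1) [q 0 3, q 1 6, q 2 12, q 4 9, q 7 10, q 8 11] (by decide) (by decide) (by decide)
  have h4 : N rho chi (sx [q 8 13, q 0 3, q 1 6, q 2 12, q 4 9, q 7 10]) = (1 : ℤ) • N rho chi (sx T5) :=
    rel code rho chi (gg (Equiv.swap 0 1) (1) (1) (Equiv.swap 0 1) (Equiv.swap 1 2) (1)) [q 8 13, q 0 3, q 1 6, q 2 12, q 4 9, q 7 10] (1) T5 (1) (by decide) (by decide)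
  have h5 : N rho chi (sx [q 11 13, q 0 3, q 1 6, q 2 12, q 4 9, q 7 10]) = 0 :=
    kill code rho chi (gg (1) (Equiv.swap 0 1) (Equiv.swap 0 1) (1) (Equiv.swap 0 3) (Equiv.swap 0 1)) [q 11 13, q 0 3, q 1 6, q 2 12, q 4 9, q 7 10] (1) (-1) [q 0 3, q 1 6, q 2 12, q 4 9, q 7 10, q 11 13] (by decide) (by decide) (by decide)
  simp only [F2, R2, List.map_cons, List.map_nil, List.sum_cons, List.sum_nil, map_add, map_zero, h0, h1, h2, h3, h4, h5]
  module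

set_option maxRecDepth 100000 in
lemma dual3 : N rho chi ((F3.map (fun p => sx (p :: R3))).sum) = (3 : ℤ) • N rho chi (sx T4) := by
  have h0 : N rho chi (sx [q 2 5, q 0 3, q 1 6, q 4 7, q 9 12, q 10 13]) = 0 :=
    kill code rho chi (gg (Equiv.swap 0 2) (Equiv.swap 0 2) (1) (1) (1) (1)) [q 2 5, q 0 3, q 1 6, q 4 7, q 9 12, q 10 13] (-1) (1) [q 0 3, q 1 6, q 2 5, q 4 7, q 9 12, q 10 13] (by decide) (by decide) (by decide)
  have h1 : N rho chi (sx [q 2 8, q 0 3, q 1 6, q 4 7, q 9 12, q 10 13]) = 0 :=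
    kill code rho chi (gg (Equiv.swap 1 2) (1) (Equiv.swap 0 2) (1) (1) (1)) [q 2 8, q 0 3, q 1 6, q 4 7, q 9 12, q 10 13] (-1) (1) [q 0 3, q 1 6, q 2 8, q 4 7, q 9 12, q 10 13] (by decide) (by decide) (by decide)
  have h2 : N rho chi (sx [q 2 11, q 0 3, q 1 6, q 4 7, q 9 12, q 10 13]) = (1 : ℤ) • N rho chi (sx T4) :=
    rel code rho chi (gg (1) (1) (1) (Equiv.swap 0 1 * Equiv.swap 1 2) (1) (1)) [q 2 11, q 0 3, q 1 6, q 4 7, q 9 12, q 10 13] (1) T4 (1) (by decide) (by decide)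
  have h3 : N rho chi (sx [q 5 8, q 0 3, q 1 6, q 4 7, q 9 12, q 10 13]) = 0 :=
    kill code rho chi (gg (1) (Equiv.swap 1 2) (Equiv.swap 1 2) (1) (1) (1)) [q 5 8, q 0 3, q 1 6, q 4 7, q 9 12, q 10 13] (1) (-1) [q 0 3, q 1 6, q 4 7, q 5 8, q 9 12, q 10 13] (by decide) (by decide) (by decide)
  have h4 : N rho chi (sx [q 5 11, q 0 3, q 1 6, q 4 7, q 9 12, q 10 13]) = (1 : ℤ) • N rho chi (sx T4) :=
    rel code rho chi (gg (1) (1) (Equiv.swap 0 1) (Equiv.swap 0 1 * Equiv.swap 1 2) (Equiv.swap 0 1) (1)) [q 5 11, q 0 3, q 1 6, q 4 7, q 9 12, q 10 13] (-1) T4 (1) (by decide) (by decide)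
  have h5 : N rho chi (sx [q 8 11, q 0 3, q 1 6, q 4 7, q 9 12, q 10 13]) = (1 : ℤ) • N rho chi (sx T4) :=
    rel code rho chi (gg (Equiv.swap 0 1) (Equiv.swap 0 1) (Equiv.swap 0 1) (Equiv.swap 0 1 * Equiv.swap 1 2) (Equiv.swap 0 2) (1)) [q 8 11, q 0 3, q 1 6, q 4 7, q 9 12, q 10 13] (-1) T4 (1) (by decide) (by decide)
  simp only [F3, R3, List.map_cons, List.map_nil, List.sum_cons, List.sum_nil, map_add, map_zero, h0, h1, h2, h3, h4, h5]
  module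

set_option maxRecDepth 100000 in
lemma dual4 : N rho chi ((F4.map (fun p => sx (p :: R4))).sum) = (-2 : ℤ) • N rho chi (sx T3) + (-1 : ℤ) • N rho chi (sx T5) := by
  have h0 : N rho chi (sx [q 2 5, q 0 3, q 1 6, q 4 9, q 7 12, q 10 13]) = 0 :=
    kill code rho chi (gg (Equiv.swap 0 2) (Equiv.swap 0 2) (1) (1) (1) (1)) [q 2 5, q 0 3, q 1 6, q 4 9, q 7 12, q 10 13] (-1) (1) [q 0 3, q 1 6, q 2 5, q 4 9, q 7 12, q 10 13] (by decide) (by decide) (by decide)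
  have h1 : N rho chi (sx [q 2 8, q 0 3, q 1 6, q 4 9, q 7 12, q 10 13]) = 0 :=
    kill code rho chi (gg (Equiv.swap 1 2) (1) (Equiv.swap 0 2) (1) (1) (1)) [q 2 8, q 0 3, q 1 6, q 4 9, q 7 12, q 10 13] (-1) (1) [q 0 3, q 1 6, q 2 8, q 4 9, q 7 12, q 10 13] (by decide) (by decide) (by decide)
  have h2 : N rho chi (sx [q 2 11, q 0 3, q 1 6, q 4 9, q 7 12, q 10 13]) = (-1 : ℤ) • N rho chi (sx T3) :=
    rel code rho chi (gg (Equiv.swap 0 1 * Equiv.swap 1 2) (Equiv.swap 0 1 * Equiv.swap 1 2) (1) (1) (Equiv.swap 1 2 * Equiv.swap 2 3) (Equiv.swap 0 1)) [q 2 11, q 0 3, q 1 6, q 4 9, q 7 12, q 10 13] (-1) T3 (-1) (by decide) (by decide)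
  have h3 : N rho chi (sx [q 5 8, q 0 3, q 1 6, q 4 9, q 7 12, q 10 13]) = (-1 : ℤ) • N rho chi (sx T3) :=
    rel code rho chi (gg (Equiv.swap 0 1 * Equiv.swap 1 2) (Equiv.swap 0 1 * Equiv.swap 1 2) (1) (1) (Equiv.swap 0 2 * Equiv.swap 1 2) (1)) [q 5 8, q 0 3, q 1 6, q 4 9, q 7 12, q 10 13] (-1) T3 (-1) (by decide) (by decide)
  have h4 : N rho chi (sx [q 5 11, q 0 3, q 1 6, q 4 9, q 7 12, q 10 13]) = 0 :=
    kill code rho chi (gg (1) (Equiv.swap 1 2) (1) (Equiv.swap 0 2) (1) (1)) [q 5 11, q 0 3, q 1 6, q 4 9, q 7 12, q 10 13] (1) (-1) [q 0 3, q 1 6, q 4 9, q 5 11, q 7 12, q 10 13] (by decide) (by decide) (by decide)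
  have h5 : N rho chi (sx [q 8 11, q 0 3, q 1 6, q 4 9, q 7 12, q 10 13]) = (-1 : ℤ) • N rho chi (sx T5) :=
    rel code rho chi (gg (Equiv.swap 0 1 * Equiv.swap 1 2) (Equiv.swap 0 1 * Equiv.swap 1 2) (Equiv.swap 0 1) (Equiv.swap 0 1) (Equiv.swap 0 2 * Equiv.swap 1 3) (1)) [q 8 11, q 0 3, q 1 6, q 4 9, q 7 12, q 10 13] (-1) T5 (-1) (by decide) (by decide)
  simp only [F4, R4, List.map_cons, List.map_nil, List.sum_cons, List.sum_nil, map_add, map_zero, h0, h1, h2, h3, h4, h5]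
  module

end Pool.Agent.W5h13.FT
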