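import Mathlib
import Pool.Agent.W5h13.FT4

/-!
Evaluation of the functional, and the certificate in all even degrees.
-/

set_option autoImplicit false

namespace Pool.Agent.W5h13.FT

open Pool.Agent.H742R3.Mat

/-- the ordered edges of `R4` -/
def S4 : List (Pt × Pt) :=
  [q 0 3, q 1 6, q 4 9, q 7 12, q 10 13, q 3 0, q 6 1, q 9 4, q 12 7, q 13 10]

lemma mem_S4 : ∀ x y : Pt, ed (x, y) ∈ R4.map ed → (x, y) ∈ S4 := by decide +kernel

lemma S4_two : ∀ (i : Fin 4) (y : Pt), (bl i 2, y) ∉ S4 := by decide +kernel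

lemma S4_blr : ∀ (i : Fin 4) (t : Fin 3) (s : Fin 2), (bl i t, br s) ∈ S4 →
    t = 1 ∧ i = if s = 0 then 2 else 3 := by decide +kernel

lemma S4_bl2 : ∀ (i : Fin 4) (t t' : Fin 3), (bl i t, bl 2 t') ∈ S4 → i = 0 ∧ t = 1 ∧ t' = 0 := by
  decide +kernel

lemma S4_bl3 : ∀ (i : Fin 4) (t t' : Fin 3), (bl i t, bl 3 t') ∈ S4 → i = 1 ∧ t = 1 ∧ t' = 0 := by
  decide +kernel

lemma S4_bl01 : ∀ (t t' : Fin 3), (bl 0 t, bl 1 t') ∈ S4 → t = 0 ∧ t' = 0 := by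
  decide +kernel

lemma S4_bl10 : ∀ (t t' : Fin 3), (bl 1 t, bl 0 t') ∈ S4 → t = 0 ∧ t' = 0 := by
  decide +kernel

lemma perm3 : ∀ σ : Equiv.Perm (Fin 3), σ 0 = 0 → σ 1 = 1 → σ = 1 := by decide +kernel

lemma perm2 : ∀ σ : Equiv.Perm (Fin 2), (σ 0 = 0 ∧ σ 1 = 1 ∧ σ = 1) ∨
    (σ 0 = 1 ∧ σ 1 = 0 ∧ σ = Equiv.swap 0 1) := by decide +kernel

lemma perm4a : ∀ σ : Equiv.Perm (Fin 4), σ 0 = 0 → σ 1 = 1 → σ 2 = 2 → σ 3 = 3 → σ = 1 := by
  decide +kernel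

lemma perm4b : ∀ σ : Equiv.Perm (Fin 4), σ 0 = 1 → σ 1 = 0 → σ 2 = 3 → σ 3 = 2 →
    σ = Equiv.swap 0 1 * Equiv.swap 2 3 := by
  decide +kernel

/-- the symmetry of `R4` -/
def gr : KK := gg 1 1 1 1 (Equiv.swap 0 1 * Equiv.swap 2 3) (Equiv.swap 0 1)

lemma stab4 (g : KK) (h : ∀ p ∈ R4, ed (act2 rho g p) ∈ R4.map ed) : g = 1 ∨ g = gr := by
  obtain ⟨⟨k, h4⟩, e⟩ := g
  have a1 := mem_S4 _ _ (h (q 0 3) (by decide))
  have a2 := mem_S4 _ _ (h (q 1 6) (by decide))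
  have a3 := mem_S4 _ _ (h (q 4 9) (by decide))
  have a4 := mem_S4 _ _ (h (q 7 12) (by decide))
  have a5 := mem_S4 _ _ (h (q 10 13) (by decide))
  replace a1 : (bl (h4 0) (k (h4 0) 0), bl (h4 1) (k (h4 1) 0)) ∈ S4 := a1
  replace a2 : (bl (h4 0) (k (h4 0) 1), bl (h4 2) (k (h4 2) 0)) ∈ S4 := a2
  replace a3 : (bl (h4 1) (k (h4 1) 1), bl (h4 3) (k (h4 3) 0)) ∈ S4 := a3
  replace a4 : (bl (h4 2) (k (h4 2) 1), br (e 0)) ∈ S4 := a4
  replace a5 : (bl (h4 3) (k (h4 3) 1), br (e 1)) ∈ S4 := a5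
  obtain ⟨b1, b2⟩ := S4_blr _ _ _ a4
  obtain ⟨c1, c2⟩ := S4_blr _ _ _ a5
  rcases perm2 e with ⟨e0, e1, e2⟩ | ⟨e0, e1, e2⟩
  · rw [e0, if_pos rfl] at b2
    rw [e1, if_neg (by decide)] at c2
    rw [b2] at a2 b1
    rw [c2] at a3 c1
    obtain ⟨d1, d2, d3⟩ := S4_bl2 _ _ _ a2
    obtain ⟨f1, f2, f3⟩ := S4_bl3 _ _ _ a3
    rw [d1, f1] at a1
    rw [d1] at d2
    rw [f1] at f2
    obtain ⟨g1, g2⟩ := S4_bl01 _ _ a1
    left
    have k0 := perm3 _ g1 d2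
    have k1 := perm3 _ g2 f2
    have k2 := perm3 _ d3 b1
    have k3 := perm3 _ f3 c1
    have hk : k = 1 := by
      funext i
      fin_cases i
      · exact k0
      · exact k1
      · exact k2
      · exact k3
    rw [hk, perm4a _ d1 f1 b2 c2, e2]
    rfl
  · rw [e0, if_neg (by decide)] at b2
    rw [e1, if_pos rfl] at c2
    rw [b2] at a2 b1
    rw [c2] at a3 c1
    obtain ⟨d1, d2, d3⟩ := S4_bl3 _ _ _ a2
    obtain ⟨f1, f2, f3⟩ := S4_bl2 _ _ _ a3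
    rw [d1, f1] at a1
    rw [d1] at d2
    rw [f1] at f2
    obtain ⟨g1, g2⟩ := S4_bl10 _ _ a1
    right
    have k0 := perm3 _ g1 d2
    have k1 := perm3 _ g2 f2
    have k2 := perm3 _ d3 b1
    have k3 := perm3 _ f3 c1
    have hk : k = ![1, 1, 1, 1] := by
      funext i
      fin_cases i
      · exact k1
      · exact k0
      · exact k3
      · exact k2
    rw [hk, perm4b _ d1 f1 b2 c2, e2]
    rfl

lemma no12 (g : KK) (h0 : ∃ y, ed (actF g (pt 0), y) ∈ R4.map ed)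
    (h1 : ∃ y, ed (actF g (pt 1), y) ∈ R4.map ed)
    (h2 : ∃ y, ed (actF g (pt 2), y) ∈ R4.map ed) : False := by
  obtain ⟨⟨k, h4⟩, e⟩ := g
  obtain ⟨y0, h0⟩ := h0
  obtain ⟨y1, h1⟩ := h1
  obtain ⟨y2, h2⟩ := h2
  replace h0 : (bl (h4 0) (k (h4 0) 0), y0) ∈ S4 := mem_S4 _ _ h0
  replace h1 : (bl (h4 0) (k (h4 0) 1), y1) ∈ S4 := mem_S4 _ _ h1
  replace h2 : (bl (h4 0) (k (h4 0) 2), y2) ∈ S4 := mem_S4 _ _ h2
  have key : ∀ σ : Equiv.Perm (Fin 3), σ 0 = 2 ∨ σ 1 = 2 ∨ σ 2 = 2 := by decide +kernel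
  rcases key (k (h4 0)) with h | h | h
  · rw [h] at h0; exact S4_two _ _ h0
  · rw [h] at h1; exact S4_two _ _ h1
  · rw [h] at h2; exact S4_two _ _ h2

lemma no3 (g : KK) (h : ∀ p ∈ R3, ed (act2 rho g p) ∈ R4.map ed) : False := by
  obtain ⟨⟨k, h4⟩, e⟩ := g
  have a4 := mem_S4 _ _ (h (q 9 12) (by decide))
  have a5 := mem_S4 _ _ (h (q 10 13) (by decide))
  replace a4 : (bl (h4 3) (k (h4 3) 0), br (e 0)) ∈ S4 := a4
  replace a5 : (bl (h4 3) (k (h4 3) 1), br (e 1)) ∈ S4 := a5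
  obtain ⟨b1, b2⟩ := S4_blr _ _ _ a4
  obtain ⟨c1, c2⟩ := S4_blr _ _ _ a5
  have := (k (h4 3)).injective (b1.trans c1.symm)
  exact absurd this (by decide)

lemma R4_nodup : (R4.map ed).Nodup := by decide +kernel

lemma A_one' {α K : Type} [DecidableEq α] [Group K] (ρ : K →* Equiv.Perm α)
    (x : Ext (Finset α)) : A ρ 1 x = x := by
  unfold A
  rw [map_one]
  have : im ((1 : Equiv.Perm α) : α → α) = fun e => e := by
    funext e
    unfold im
    rw [Equiv.Perm.coe_one]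
    exact Finset.image_id
  rw [this, GH_id]

lemma B_sum_gen {α K : Type} [DecidableEq α] [Group K] [Fintype K] (ρ : K →* Equiv.Perm α)
    (χ : K →* ℤˣ) (x y : Ext (Finset α)) :
    B x (N ρ χ y) = ∑ g : K, ((χ g : ℤˣ) : ℤ) * B (A ρ g x) y := by
  rw [B_N_right]
  rw [← Equiv.sum_comp (Equiv.inv K)]
  refine Finset.sum_congr rfl (fun g _ => ?_)
  rw [Equiv.inv_apply, map_inv, ← B_A ρ g x (A ρ g⁻¹ y), A_mul, mul_inv_cancel, A_one']
  rcases Int.units_eq_one_or (χ g) with h | h <;> rw [h] <;> rfl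

/-- the pairing with `R4` vanishes if no group element maps the list into `R4` -/
lemma B_zero (l : List (Pt × Pt))
    (h : ∀ g : KK, ¬ ∀ p ∈ l, ed (act2 rho g p) ∈ R4.map ed) :
    B (sx l) (N rho chi (sx R4)) = 0 := by
  rw [B_sum_gen]
  refine Finset.sum_eq_zero (fun g _ => ?_)
  have : B (A rho g (sx l)) (sx R4) = 0 := by
    rw [A_sx]
    by_contra hne
    have h2 := B_ne_zero R4_nodup hne
    apply h g
    intro p hp
    exact h2 _ (List.mem_map_of_mem (List.mem_map_of_mem hp))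
  rw [this, mul_zero]

lemma B_R1 : B (sx R1) (N rho chi (sx R4)) = 0 := by
  apply B_zero
  intro g h
  exact no12 g ⟨_, h (q 0 3) (by decide)⟩ ⟨_, h (q 1 6) (by decide)⟩ ⟨_, h (q 2 9) (by decide)⟩

lemma B_R2 : B (sx R2) (N rho chi (sx R4)) = 0 := by
  apply B_zero
  intro g h
  exact no12 g ⟨_, h (q 0 3) (by decide)⟩ ⟨_, h (q 1 6) (by decide)⟩ ⟨_, h (q 2 12) (by decide)⟩

lemma B_R3 : B (sx R3) (N rho chi (sx R4)) = 0 := B_zero _ (fun g h => no3 g h)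

lemma gr_ne : (1 : KK) ≠ gr := by
  intro h
  have h2 : (1 : Equiv.Perm (Fin 2)) = Equiv.swap 0 1 := congrArg Prod.snd h
  exact absurd h2 (by decide)

lemma A_gr : A rho gr (sx R4) = sx R4 := by
  rw [A_sx, sx_norm code]
  have : norm code (R4.map (act2 rho gr)) = (1, R4) := by decide +kernel
  rw [this, one_smul]

lemma B_R4 : B (sx R4) (N rho chi (sx R4)) = 2 * B (sx R4) (sx R4) := by
  have h2 : ((chi gr : ℤˣ) : ℤ) = 1 := by decide +kernel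
  classical
  rw [B_sum_gen]
  have h1 : ∀ g : KK, g ∉ ({1, gr} : Finset KK) →
      ((chi g : ℤˣ) : ℤ) * B (A rho g (sx R4)) (sx R4) = 0 := by
    intro g hg
    have : B (A rho g (sx R4)) (sx R4) = 0 := by
      rw [A_sx]
      by_contra hne
      have h2 := B_ne_zero R4_nodup hne
      have h3 := stab4 g (fun p hp => h2 _ (List.mem_map_of_mem (List.mem_map_of_mem hp)))
      apply hg
      rw [Finset.mem_insert, Finset.mem_singleton]
      exact h3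
    rw [this, mul_zero]
  rw [← Finset.sum_subset (Finset.subset_univ ({1, gr} : Finset KK)) (fun g _ hg => h1 g hg),
    Finset.sum_pair gr_ne, A_one', A_gr]
  rw [h2, map_one]
  simp only [Units.val_one]
  ring

/-- the cochain -/
noncomputable def psi : Ext (Finset Pt) := sx R1 - (2 : ℤ) • sx R2 + (2 : ℤ) • sx R3 + sx R4

/-- the bounding chain -/
noncomputable def w0 : Ext (Finset Pt) :=
  (-4 : ℤ) • sx T3 + (2 : ℤ) • sx T2 - (2 : ℤ) • sx T1 - sx T5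

lemma ML_of (l : List (Pt × Pt)) (h1 : ∀ p ∈ l, p.1 ≠ p.2)
    (h2 : l.Pairwise (fun p r => Disjoint (ed p) (ed r))) : ML Finset.univ (l.map ed) := by
  refine ⟨?_, List.pairwise_map.2 h2⟩
  intro e he
  rw [List.mem_map] at he
  obtain ⟨p, hp, rfl⟩ := he
  exact ⟨Finset.card_pair (h1 p hp), Finset.subset_univ _⟩

lemma sx_MC (l : List (Pt × Pt)) (k : ℕ) (hk : l.length = k) (h1 : ∀ p ∈ l, p.1 ≠ p.2)
    (h2 : l.Pairwise (fun p r => Disjoint (ed p) (ed r))) :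
    sx l ∈ MC (Finset.univ : Finset Pt) k :=
  mem_spn ⟨ML_of l h1 h2, by rw [List.length_map, hk]⟩

lemma R1_MC : sx R1 ∈ MC (Finset.univ : Finset Pt) 5 :=
  sx_MC R1 5 (by decide) (by decide +kernel) (by decide +kernel)

lemma R2_MC : sx R2 ∈ MC (Finset.univ : Finset Pt) 5 :=
  sx_MC R2 5 (by decide) (by decide +kernel) (by decide +kernel)

lemma R3_MC : sx R3 ∈ MC (Finset.univ : Finset Pt) 5 :=
  sx_MC R3 5 (by decide) (by decide +kernel) (by decide +kernel)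

lemma R4_MC : sx R4 ∈ MC (Finset.univ : Finset Pt) 5 :=
  sx_MC R4 5 (by decide) (by decide +kernel) (by decide +kernel)

lemma T1_MC : sx T1 ∈ MC (Finset.univ : Finset Pt) 6 :=
  sx_MC T1 6 (by decide) (by decide +kernel) (by decide +kernel)

lemma T2_MC : sx T2 ∈ MC (Finset.univ : Finset Pt) 6 :=
  sx_MC T2 6 (by decide) (by decide +kernel) (by decide +kernel)

lemma T3_MC : sx T3 ∈ MC (Finset.univ : Finset Pt) 6 :=
  sx_MC T3 6 (by decide) (by decide +kernel) (by decide +kernel)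

lemma T5_MC : sx T5 ∈ MC (Finset.univ : Finset Pt) 6 :=
  sx_MC T5 6 (by decide) (by decide +kernel) (by decide +kernel)

lemma om1 : om * sx R1 - (F1.map (fun p => sx (p :: R1))).sum ∈
    (NM : Submodule ℤ (Ext (Finset Pt))) :=
  om_sx R1 F1 (by decide +kernel) (by decide +kernel) (by decide +kernel)

lemma om2 : om * sx R2 - (F2.map (fun p => sx (p :: R2))).sum ∈
    (NM : Submodule ℤ (Ext (Finset Pt))) :=
  om_sx R2 F2 (by decide +kernel) (by decide +kernel) (by decide +kernel)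

lemma om3 : om * sx R3 - (F3.map (fun p => sx (p :: R3))).sum ∈
    (NM : Submodule ℤ (Ext (Finset Pt))) :=
  om_sx R3 F3 (by decide +kernel) (by decide +kernel) (by decide +kernel)

lemma om4 : om * sx R4 - (F4.map (fun p => sx (p :: R4))).sum ∈
    (NM : Submodule ℤ (Ext (Finset Pt))) :=
  om_sx R4 F4 (by decide +kernel) (by decide +kernel) (by decide +kernel)

lemma lin1 {V : Type} (f g : Ext V →ₗ[ℤ] Ext V) (s1 s2 s3 s5 t0 t1 t2 t4 : Ext V)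
    (d1 : f (g s1) = -t0 - (2 : ℤ) • t1 - t2) (d2 : f (g s2) = -t0) (d3 : f (g s3) = t1 - t4)
    (d5 : f (g s5) = (2 : ℤ) • t2 - t4) :
    f (g ((-4 : ℤ) • s3 + (2 : ℤ) • s2 - (2 : ℤ) • s1 - s5)) = (5 : ℤ) • t4 := by
  simp only [map_add, map_sub, map_smul, d1, d2, d3, d5]
  module

lemma lin2 {V : Type} (f : Ext V →ₗ[ℤ] Ext V) (o1 o2 o3 o4 s1 s2 s3 s4 t1 t3 t4 t5 : Ext V)
    (d1 : f s1 = (-2 : ℤ) • t1 + (2 : ℤ) • t3 + (-1 : ℤ) • t4)
    (d2 : f s2 = (-1 : ℤ) • t1 + (2 : ℤ) • t5)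
    (d3 : f s3 = (3 : ℤ) • t4)
    (d4 : f s4 = (-2 : ℤ) • t3 + (-1 : ℤ) • t5) :
    f (o1 - (2 : ℤ) • o2 + (2 : ℤ) • o3 + o4) = (5 : ℤ) • (t4 - t5) +
      f ((o1 - s1) - (2 : ℤ) • (o2 - s2) + (2 : ℤ) • (o3 - s3) + (o4 - s4)) := by
  simp only [map_add, map_sub, map_smul, d1, d2, d3, d4]
  module

lemma om_psi_aux (f : Ext (Finset Pt) →ₗ[ℤ] Ext (Finset Pt)) (o : Ext (Finset Pt))
    (d1 : f ((F1.map (fun p => sx (p :: R1))).sum) =
      (-2 : ℤ) • f (sx T1) + (2 : ℤ) • f (sx T3) + (-1 : ℤ) • f (sx T4))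
    (d2 : f ((F2.map (fun p => sx (p :: R2))).sum) = (-1 : ℤ) • f (sx T1) + (2 : ℤ) • f (sx T5))
    (d3 : f ((F3.map (fun p => sx (p :: R3))).sum) = (3 : ℤ) • f (sx T4))
    (d4 : f ((F4.map (fun p => sx (p :: R4))).sum) = (-2 : ℤ) • f (sx T3) + (-1 : ℤ) • f (sx T5)) :
    f (o * (sx R1 - (2 : ℤ) • sx R2 + (2 : ℤ) • sx R3 + sx R4)) =
      (5 : ℤ) • (f (sx T4) - f (sx T5)) +
      f ((o * sx R1 - (F1.map (fun p => sx (p :: R1))).sum) -
      (2 : ℤ) • (o * sx R2 - (F2.map (fun p => sx (p :: R2))).sum) +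
      (2 : ℤ) • (o * sx R3 - (F3.map (fun p => sx (p :: R3))).sum) +
      (o * sx R4 - (F4.map (fun p => sx (p :: R4))).sum)) := by
  rw [mul_add, mul_add, mul_sub, mul_smul_comm, mul_smul_comm]
  exact lin2 f _ _ _ _ _ _ _ _ _ _ _ _ d1 d2 d3 d4

lemma psi_eq : psi = sx R1 - (2 : ℤ) • sx R2 + (2 : ℤ) • sx R3 + sx R4 := rfl

lemma om_psi_eq : om * psi = om * (sx R1 - (2 : ℤ) • sx R2 + (2 : ℤ) • sx R3 + sx R4) :=
  congrArg (fun x => om * x) psi_eq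

lemma N_om_psi_eq : N rho chi (om * psi) =
    N rho chi (om * (sx R1 - (2 : ℤ) • sx R2 + (2 : ℤ) • sx R3 + sx R4)) :=
  congrArg (N rho chi) om_psi_eq

/-- `N (om * ψ)` is divisible by `5`, up to non-matchings -/
lemma om_psi : ∃ x n : Ext (Finset Pt), n ∈ (NM : Submodule ℤ (Ext (Finset Pt))) ∧
    N rho chi (om * psi) = (5 : ℤ) • x + n := by
  refine ⟨N rho chi (sx T4) - N rho chi (sx T5),
    N rho chi ((om * sx R1 - (F1.map (fun p => sx (p :: R1))).sum) -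
      (2 : ℤ) • (om * sx R2 - (F2.map (fun p => sx (p :: R2))).sum) +
      (2 : ℤ) • (om * sx R3 - (F3.map (fun p => sx (p :: R3))).sum) +
      (om * sx R4 - (F4.map (fun p => sx (p :: R4))).sum)), N_NM _ _ ?_, ?_⟩
  · exact Submodule.add_mem _ (Submodule.add_mem _ (Submodule.sub_mem _ om1
      (Submodule.smul_mem _ _ om2)) (Submodule.smul_mem _ _ om3)) om4
  · exact N_om_psi_eq.trans (om_psi_aux _ _ dual1 dual2 dual3 dual4)

lemma bd_w0_aux (f g : Ext (Finset Pt) →ₗ[ℤ] Ext (Finset Pt))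
    (d1 : f (g (sx T1)) = -f (sx R0) - (2 : ℤ) • f (sx R1) - f (sx R2))
    (d2 : f (g (sx T2)) = -f (sx R0)) (d3 : f (g (sx T3)) = f (sx R1) - f (sx R4))
    (d5 : f (g (sx T5)) = (2 : ℤ) • f (sx R2) - f (sx R4)) :
    f (g ((-4 : ℤ) • sx T3 + (2 : ℤ) • sx T2 - (2 : ℤ) • sx T1 - sx T5)) =
      (5 : ℤ) • f (sx R4) :=
  lin1 f g (sx T1) (sx T2) (sx T3) (sx T5) _ _ _ _ d1 d2 d3 d5

lemma w0_eq : w0 = (-4 : ℤ) • sx T3 + (2 : ℤ) • sx T2 - (2 : ℤ) • sx T1 - sx T5 := rfl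

lemma bd_w0_eq : bd w0 =
    bd ((-4 : ℤ) • sx T3 + (2 : ℤ) • sx T2 - (2 : ℤ) • sx T1 - sx T5) := congrArg bd w0_eq

lemma N_bd_w0_eq : N rho chi (bd w0) =
    N rho chi (bd ((-4 : ℤ) • sx T3 + (2 : ℤ) • sx T2 - (2 : ℤ) • sx T1 - sx T5)) :=
  congrArg (N rho chi) bd_w0_eq

lemma bd_w0 : N rho chi (bd w0) = (5 : ℤ) • N rho chi (sx R4) :=
  N_bd_w0_eq.trans (bd_w0_aux _ _ bdT1 bdT2 bdT3 bdT5)

/-- the functional modulo `5` -/
noncomputable def phi {V : Type} (x : Ext V) : Ext V →ₗ[ℤ] ZMod 5 :=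
  (Int.castAddHom (ZMod 5)).toIntLinearMap ∘ₗ Br x

lemma phi_apply {V : Type} (x y : Ext V) : phi x y = ((B x y : ℤ) : ZMod 5) := rfl

theorem cert14 : Cert Pt 5 := by
  have hpsi : N rho chi psi ∈ MC (Finset.univ : Finset Pt) 5 := by
    apply N_MC
    exact Submodule.add_mem _ (Submodule.add_mem _ (Submodule.sub_mem _ R1_MC
      (Submodule.smul_mem _ _ R2_MC)) (Submodule.smul_mem _ _ R3_MC)) R4_MC
  refine ⟨N rho chi (sx R4), N rho chi w0,
    phi (N rho chi psi), N_MC _ _ R4_MC,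
    N_MC _ _ ?_, ?_, ?_, ?_, ?_⟩
  · exact Submodule.sub_mem _ (Submodule.sub_mem _ (Submodule.add_mem _
      (Submodule.smul_mem _ _ T3_MC) (Submodule.smul_mem _ _ T2_MC))
      (Submodule.smul_mem _ _ T1_MC)) T5_MC
  · rw [bd_N, bdR4]
  · rw [bd_N, bd_w0]
  · intro y hy
    rw [phi_apply]
    obtain ⟨x, n, hn, hx⟩ := om_psi
    rw [B_bd hpsi hy, om_N, hx, B_add_left, B_smul_left, B_NM hn hy]
    push_cast
    have : (5 : ZMod 5) = 0 := by decide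
    rw [this]
    ring
  · rw [phi_apply]
    have h1 : B psi (N rho chi (sx R4)) = 2 * B (sx R4) (sx R4) := by
      unfold psi
      rw [← Bl_apply, map_add, map_add, map_sub, map_smul, map_smul, Bl_apply, Bl_apply, Bl_apply,
        Bl_apply, B_R1, B_R2, B_R3, B_R4]
      simp
    rw [B_N_N, h1, card_KK]
    rcases B_self (R4.map ed) R4_nodup with h | h
    · have h' : B (sx R4) (sx R4) = 1 := h
      rw [h']
      decide
    · have h' : B (sx R4) (sx R4) = -1 := h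
      rw [h']
      decide

/-- certificates for all even `n ≥ 14` -/
theorem cert_all (k : ℕ) : Cert (Fin (2 * k + 16)) (k + 6) := by
  induction k with
  | zero => exact cert14.step (by decide) (by decide)
  | succ k ih =>
    have : 2 * (k + 1) + 16 = 2 * k + 18 := by ring
    exact ih.step (β := Fin (2 * (k + 1) + 16)) (by simp; ring) (by simp)

end Pool.Agent.W5h13.FT
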