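import Mathlib

/-!
Moment-curve systems of parameters for cycles: definitions and the reduction to squarefree
monomials.
-/

set_option autoImplicit false

namespace Pool.Agent.W5h13.MC

open MvPolynomial Finset

universe u

section defs
variable {V : Type} {k : Type u} [Field k]

/-- A `(d-1)`-cycle with coefficients in `k` on the vertex set `V`, as an alternating function of
`d` vertices: the coefficient of the oriented simplex `[v 0, …, v (d-1)]` is `μ v`, and it is
`0` if the vertices are not distinct. The last condition says that the boundary vanishes. -/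
structure IsCycle [Fintype V] (d : ℕ) (μ : (Fin d → V) → k) : Prop where
  alt : ∀ (s : Equiv.Perm (Fin d)) (v : Fin d → V),
    μ (v ∘ s) = (((Equiv.Perm.sign s : ℤˣ) : ℤ) : k) * μ v
  inj : ∀ v : Fin d → V, ¬ Function.Injective v → μ v = 0
  bdry : ∀ (w : Fin d → V) (i : Fin d), ∑ x, μ (Function.update w i x) = 0

/-- The support of a cycle: the simplicial complex whose facets are the simplices with nonzero
coefficient. -/
def supportComplex {d : ℕ} (μ : (Fin d → V) → k) : Set (Finset V) :=
  {F | ∃ v : Fin d → V, μ v ≠ 0 ∧ ∀ x ∈ F, x ∈ Set.range v}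

variable (k) in
/-- The Stanley-Reisner ideal of `Δ`. -/
noncomputable def faceIdeal (Δ : Set (Finset V)) : Ideal (MvPolynomial V k) :=
  Ideal.span {m | ∃ F : Finset V, F ∉ Δ ∧ m = ∏ v ∈ F, X v}

/-- The linear forms `θ_j = ∑_v (p_v)_j x_v`. -/
noncomputable def theta [Fintype V] {d : ℕ} (p : V → Fin d → k) (j : Fin d) : MvPolynomial V k :=
  ∑ v, C (p v j) * X v

/-- The ideal `I_Δ + (θ_1, …, θ_d)`. -/
noncomputable def redIdeal [Fintype V] {d : ℕ} (Δ : Set (Finset V)) (p : V → Fin d → k) :
    Ideal (MvPolynomial V k) :=
  faceIdeal k Δ ⊔ Ideal.span (Set.range (theta p))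

/-- The Artinian reduction `A^*(Δ) = k[Δ] / (θ_1, …, θ_d)`. -/
abbrev Red [Fintype V] {d : ℕ} (Δ : Set (Finset V)) (p : V → Fin d → k) : Type u :=
  MvPolynomial V k ⧸ redIdeal Δ p

/-- The graded piece `A^i(Δ)`. -/
noncomputable def gr [Fintype V] {d : ℕ} (Δ : Set (Finset V)) (p : V → Fin d → k) (i : ℕ) :
    Submodule k (Red Δ p) :=
  (homogeneousSubmodule V k i).map (Ideal.Quotient.mkₐ k (redIdeal Δ p)).toLinearMap

/-- The points `p_v = (t_v, t_v^2, …, t_v^d)` on the moment curve. -/
def momentCurve (d : ℕ) (t : V → k) : V → Fin d → k := fun v j => t v ^ (j.val + 1)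

/-- `φ` is the evaluation `μ^∨` at the cycle `μ`: on the monomial of `d` vertices `v` it is
`μ v / det (p_{v 0}, …, p_{v (d-1)})`. These monomials span `A^d`, so that `φ` is determined on
`A^d`. -/
def IsDegreeMap [Fintype V] {d : ℕ} (μ : (Fin d → V) → k) (p : V → Fin d → k)
    (φ : Red (supportComplex μ) p →ₗ[k] k) : Prop :=
  ∀ v : Fin d → V, Matrix.det (Matrix.of fun i j => p (v i) j) *
    φ (Ideal.Quotient.mk _ (∏ i, X (v i))) = μ v

/-- `L^i`: the elements of `A^i` which pair to zero with all of `A^{d-i}`. -/
def radical [Fintype V] {d : ℕ} {Δ : Set (Finset V)} {p : V → Fin d → k}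
    (φ : Red Δ p →ₗ[k] k) (i : ℕ) : Set (Red Δ p) :=
  {a | a ∈ gr Δ p i ∧ ∀ b ∈ gr Δ p (d - i), φ (a * b) = 0}

/-- The Lefschetz property of `B^* = A^* / L^*`: for some `ℓ ∈ A^1` all the multiplications
`ℓ^{d-2j} : B^j → B^{d-j}`, `0 ≤ j ≤ d/2`, are bijective (injective and surjective modulo
`L^*`). -/
def LefschetzMod [Fintype V] {d : ℕ} {Δ : Set (Finset V)} {p : V → Fin d → k}
    (φ : Red Δ p →ₗ[k] k) : Prop :=
  ∃ ℓ ∈ gr Δ p 1, ∀ j, 2 * j ≤ d →
    (∀ a ∈ gr Δ p j, ℓ ^ (d - 2 * j) * a ∈ radical φ (d - j) → a ∈ radical φ j) ∧
    (∀ b ∈ gr Δ p (d - j), ∃ a ∈ gr Δ p j, b - ℓ ^ (d - 2 * j) * a ∈ radical φ (d - j))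

end defs

section reduce
variable {V : Type} [Fintype V] [DecidableEq V] {k : Type u} [Field k]

/-- linear combinations of the `θ_j` -/
lemma comb_theta {d : ℕ} (t : V → k) (q : Polynomial k) (h0 : q.coeff 0 = 0)
    (hd : q.natDegree ≤ d) :
    ∑ j : Fin d, C (q.coeff (j.val + 1)) * theta (momentCurve d t) j =
      ∑ v, C (q.eval (t v)) * X v := by
  have h1 : ∀ x : k, q.eval x = ∑ j : Fin d, q.coeff (j.val + 1) * x ^ (j.val + 1) := by
    intro x
    rw [Polynomial.eval_eq_sum_range' (n := d + 1) (by omega), Finset.sum_range_succ', h0,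
      zero_mul, add_zero, Finset.sum_range]
  simp only [theta, momentCurve, Finset.mul_sum]
  rw [Finset.sum_comm]
  refine Finset.sum_congr rfl (fun v _ => ?_)
  rw [h1, map_sum, Finset.sum_mul]
  refine Finset.sum_congr rfl (fun j _ => ?_)
  rw [map_mul]
  ring

/-- A functional which kills the multiples of the `θ_j` and the squarefree monomials of degree `d`
with bad support kills all monomials of degree `d` with bad support. -/
lemma reduce {d : ℕ} (t : V → k) (ht : Function.Injective t) (ht0 : ∀ v, t v ≠ 0)
    (P : Finset V → Prop) (hP : ∀ F F', F ⊆ F' → P F → P F')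
    (Φ : MvPolynomial V k →ₗ[k] k)
    (hθ : ∀ (j : Fin d) (f : MvPolynomial V k), Φ (theta (momentCurve d t) j * f) = 0)
    (hsq : ∀ F : Finset V, P F → F.card = d → Φ (∏ v ∈ F, X v) = 0) :
    ∀ (n : ℕ) (s : V →₀ ℕ), d - s.support.card ≤ n → s.degree = d → P s.support →
      Φ (monomial s 1) = 0 := by
  intro n
  induction n with
  | zero =>
    intro s hn hs hPs
    have hle : d ≤ s.support.card := by omega
    have h1 : ∀ v ∈ s.support, s v = 1 := by
      have hge : ∀ v ∈ s.support, 1 ≤ s v := fun v hv =>
        Nat.one_le_iff_ne_zero.2 (Finsupp.mem_support_iff.1 hv)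
      have hsum : ∑ v ∈ s.support, s v = d := hs
      have hcard : ∑ v ∈ s.support, 1 = s.support.card := by simp
      by_contra hcon
      push Not at hcon
      obtain ⟨v, hv, hv1⟩ := hcon
      have hlt : ∑ v ∈ s.support, 1 < ∑ v ∈ s.support, s v :=
        Finset.sum_lt_sum hge ⟨v, hv, lt_of_le_of_ne (hge v hv) (Ne.symm hv1)⟩
      omega
    have hcard : s.support.card = d := by
      have hsum : ∑ v ∈ s.support, s v = d := hs
      rw [Finset.sum_congr rfl h1] at hsum
      simpa using hsum
    have h2 : (monomial s (1 : k)) = ∏ v ∈ s.support, X v := by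
      rw [monomial_eq, map_one, one_mul, Finsupp.prod]
      refine Finset.prod_congr rfl (fun v hv => ?_)
      rw [h1 v hv, pow_one]
    rw [h2]
    exact hsq _ hPs hcard
  | succ n ih =>
    intro s hn hs hPs
    by_cases hlt : s.support.card < d
    · -- some exponent is at least two
      obtain ⟨v, hv, hv2⟩ : ∃ v ∈ s.support, 2 ≤ s v := by
        by_contra hcon
        push Not at hcon
        have hsum : ∑ v ∈ s.support, s v = d := hs
        have hle : ∑ v ∈ s.support, s v ≤ ∑ v ∈ s.support, 1 :=
          Finset.sum_le_sum (fun v hv => by have := hcon v hv; omega)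
        rw [hsum] at hle
        simp at hle
        omega
      set s' : V →₀ ℕ := s - Finsupp.single v 1 with hs'
      have hsv : s = s' + Finsupp.single v 1 := by
        rw [hs', tsub_add_cancel_of_le]
        rw [Finsupp.single_le_iff]
        omega
      have hs'v : s' v ≠ 0 := by
        rw [hs']
        simp
        omega
      have hsupp : s'.support = s.support := by
        ext w
        rw [Finsupp.mem_support_iff, Finsupp.mem_support_iff]
        by_cases hw : w = v
        · subst hw
          exact ⟨fun _ => Finsupp.mem_support_iff.1 hv, fun _ => hs'v⟩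
        · rw [hsv, Finsupp.add_apply, Finsupp.single_apply, if_neg (Ne.symm hw), add_zero]
      let q : Polynomial k :=
        Polynomial.X * ∏ w ∈ s.support.erase v, (Polynomial.X - Polynomial.C (t w))
      have hq0 : q.coeff 0 = 0 := by
        simp [q, Polynomial.mul_coeff_zero]
      have hqd : q.natDegree ≤ d := by
        have h1 : (∏ w ∈ s.support.erase v, (Polynomial.X - Polynomial.C (t w))).natDegree ≤
            (s.support.erase v).card := by
          refine (Polynomial.natDegree_prod_le _ _).trans ?_
          refine (Finset.sum_le_sum (fun w _ => (Polynomial.natDegree_X_sub_C_le (t w)))).trans ?_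
          simp
        have h2 : (s.support.erase v).card = s.support.card - 1 := Finset.card_erase_of_mem hv
        have h3 : 0 < s.support.card := Finset.card_pos.2 ⟨v, hv⟩
        have h4 : q.natDegree ≤ 1 + (s.support.erase v).card :=
          (Polynomial.natDegree_mul_le).trans (add_le_add Polynomial.natDegree_X_le h1)
        omega
      have hqe : ∀ x, q.eval x = x * ∏ w ∈ s.support.erase v, (x - t w) := by
        intro x
        simp [q, Polynomial.eval_prod]
      have hsum := congrArg (fun y => y * monomial s' (1 : k)) (comb_theta (d := d) t q hq0 hqd)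
      beta_reduce at hsum
      have h1 : Φ ((∑ u, C (q.eval (t u)) * X u) * monomial s' 1) = 0 := by
        rw [← hsum, Finset.sum_mul, map_sum]
        refine Finset.sum_eq_zero (fun j _ => ?_)
        have : C (q.coeff (j.val + 1)) * theta (momentCurve d t) j * monomial s' (1 : k) =
            q.coeff (j.val + 1) • (theta (momentCurve d t) j * monomial s' 1) := by
          rw [smul_eq_C_mul]; ring
        rw [this, map_smul, hθ, smul_zero]
      have h2 : ∀ u, Φ (C (q.eval (t u)) * X u * monomial s' 1) =
          q.eval (t u) * Φ (monomial (s' + Finsupp.single u 1) 1) := by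
        intro u
        have : C (q.eval (t u)) * X u * monomial s' (1 : k) =
            q.eval (t u) • monomial (s' + Finsupp.single u 1) 1 := by
          rw [smul_eq_C_mul, mul_assoc, X, monomial_mul, one_mul, add_comm]
        rw [this, map_smul, smul_eq_mul]
      rw [Finset.sum_mul, map_sum, Finset.sum_congr rfl (fun u _ => h2 u),
        Finset.sum_eq_single v] at h1
      · rw [← hsv] at h1
        refine (mul_eq_zero.1 h1).resolve_left ?_
        rw [hqe]
        refine mul_ne_zero (ht0 v) (Finset.prod_ne_zero_iff.2 (fun w hw => ?_))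
        rw [sub_ne_zero]
        intro h
        exact (Finset.mem_erase.1 hw).1 (ht h).symm
      · intro u _ huv
        by_cases hu : u ∈ s.support
        · have : q.eval (t u) = 0 := by
            rw [hqe, Finset.prod_eq_zero (Finset.mem_erase.2 ⟨huv, hu⟩) (sub_self _), mul_zero]
          rw [this, zero_mul]
        · have hsup : (s' + Finsupp.single u 1).support = insert u s.support := by
            ext w
            rw [Finset.mem_insert, Finsupp.mem_support_iff, Finsupp.add_apply, ← hsupp,
              Finsupp.mem_support_iff, Finsupp.single_apply]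
            by_cases hw : u = w
            · subst hw; simp
            · rw [if_neg hw, add_zero]
              constructor
              · exact fun h => Or.inr h
              · rintro (h | h)
                · exact absurd h.symm hw
                · exact h
          rw [ih, mul_zero]
          · rw [hsup, Finset.card_insert_of_notMem hu]
            omega
          · have e1 : (s' + Finsupp.single v 1).degree = d := by rw [← hsv]; exact hs
            rw [map_add, Finsupp.degree_single] at e1 ⊢
            exact e1
          · rw [hsup]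
            exact hP _ _ (Finset.subset_insert _ _) hPs
      · intro h
        exact absurd (Finset.mem_univ v) h
    · exact ih s (by omega) hs hPs

end reduce

end Pool.Agent.W5h13.MC
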