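import Pool.Agent.W5h13.MC1

/-!
Cycles from functionals on a polynomial ring.
-/

set_option autoImplicit false

namespace Pool.Agent.W5h13.MC

open MvPolynomial Finset

universe u

section lin
variable {V : Type} [Fintype V] [DecidableEq V] {k : Type u} [Field k]

/-- Gale dual vectors. -/
lemma exists_gale {d : ℕ} (t : V → k) {σ : Type} [Fintype σ] [DecidableEq σ]
    (hσ : d + Fintype.card σ ≤ Fintype.card V) :
    ∃ (g : σ → V → k) (c : σ → V → k),
      (∀ (j : Fin d) (a : σ), ∑ v, t v ^ (j.val + 1) * g a v = 0) ∧
      (∀ a b : σ, ∑ v, c a v * g b v = if a = b then 1 else 0) := by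
  let T : (V → k) →ₗ[k] (Fin d → k) :=
    { toFun := fun z j => ∑ v, t v ^ (j.val + 1) * z v
      map_add' := by
        intro x y
        funext j
        simp only [Pi.add_apply, mul_add, Finset.sum_add_distrib]
      map_smul' := by
        intro r x
        funext j
        simp only [Pi.smul_apply, smul_eq_mul, RingHom.id_apply, Finset.mul_sum]
        refine Finset.sum_congr rfl (fun v _ => by ring) }
  have hrank : Fintype.card σ ≤ Module.finrank k (LinearMap.ker T) := by
    have h1 := LinearMap.finrank_range_add_finrank_ker T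
    have h2 : Module.finrank k (LinearMap.range T) ≤ d := by
      have := Submodule.finrank_le (LinearMap.range T)
      simpa using this
    have h3 : Module.finrank k (V → k) = Fintype.card V := Module.finrank_fintype_fun_eq_card k
    omega
  obtain ⟨f, hf⟩ : ∃ f : Fin (Fintype.card σ) → LinearMap.ker T, LinearIndependent k f :=
    exists_linearIndependent_of_le_finrank hrank
  let e := Fintype.equivFin σ
  let g : σ → V → k := fun a => (f (e a) : V → k)
  have hg : LinearIndependent k g := by
    have h1 : LinearIndependent k (fun i => (f i : V → k)) :=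
      hf.map' (LinearMap.ker T).subtype (Submodule.ker_subtype _)
    exact h1.comp e e.injective
  let S : (σ → k) →ₗ[k] (V → k) := Fintype.linearCombination k g
  have hS : LinearMap.ker S = ⊥ := by
    rw [LinearMap.ker_eq_bot']
    intro m hm
    funext i
    exact Fintype.linearIndependent_iff.1 hg m (by simpa [S, Fintype.linearCombination_apply] using hm) i
  obtain ⟨L, hL⟩ := LinearMap.exists_leftInverse_of_injective S hS
  refine ⟨g, fun a v => L (Pi.single v 1) a, ?_, ?_⟩
  · intro j a
    have h : T (g a) = 0 := (f (e a)).2
    exact congrFun h j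
  · intro a b
    have h1 : S (Pi.single b 1) = g b := by
      simp only [S]
      rw [Fintype.linearCombination_apply_single, one_smul]
    have h2 : L (g b) = Pi.single b 1 := by
      rw [← h1]
      exact LinearMap.congr_fun hL _
    have h3 : L (g b) = ∑ v, g b v • L (Pi.single v 1) := by
      conv_lhs => rw [← Finset.univ_sum_single (g b)]
      rw [map_sum]
      refine Finset.sum_congr rfl (fun v _ => ?_)
      rw [← map_smul]
      congr 1
      ext w
      simp [Pi.single_apply]
    have h4 := congrFun h3 a
    rw [h2, Finset.sum_apply] at h4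
    rw [Pi.single_apply] at h4
    rw [h4]
    refine Finset.sum_congr rfl (fun v _ => ?_)
    rw [Pi.smul_apply, smul_eq_mul, mul_comm]

/-- the determinants of points on the moment curve -/
lemma det_ne_zero {d : ℕ} (t : V → k) (ht : Function.Injective t) (ht0 : ∀ v, t v ≠ 0)
    (v : Fin d → V) (hv : Function.Injective v) :
    Matrix.det (Matrix.of fun i j => momentCurve d t (v i) j) ≠ 0 := by
  have h1 : (Matrix.of fun i j => momentCurve d t (v i) j) =
      Matrix.of fun i j => t (v i) * (Matrix.vandermonde (fun i => t (v i))) i j := by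
    ext i j
    simp [momentCurve, Matrix.vandermonde_apply, pow_succ']
  rw [h1, Matrix.det_mul_column]
  refine mul_ne_zero (Finset.prod_ne_zero_iff.2 (fun i _ => ht0 _)) ?_
  rw [Matrix.det_vandermonde_ne_zero_iff]
  exact ht.comp hv

end lin

section construct
variable {V : Type} [Fintype V] [DecidableEq V] {k : Type u} [Field k]

/-- the value of the cycle on a simplex -/
noncomputable def cyc (d : ℕ) (t : V → k) (Φ : MvPolynomial V k →ₗ[k] k) (v : Fin d → V) : k :=
  Matrix.det (Matrix.of fun i j => momentCurve d t (v i) j) * Φ (∏ i, X (v i))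

lemma cyc_isCycle {d : ℕ} (t : V → k) (Φ : MvPolynomial V k →ₗ[k] k)
    (hθ : ∀ (j : Fin d) (f : MvPolynomial V k), Φ (theta (momentCurve d t) j * f) = 0) :
    IsCycle d (cyc d t Φ) where
  alt := by
    intro s v
    have h1 : (Matrix.of fun i j => momentCurve d t ((v ∘ s) i) j) =
        (Matrix.of fun i j => momentCurve d t (v i) j).submatrix s id := by
      ext i j; rfl
    have h2 : (∏ i, X ((v ∘ s) i) : MvPolynomial V k) = ∏ i, X (v i) :=
      Equiv.prod_comp s (fun i => (X (v i) : MvPolynomial V k))
    simp only [cyc]
    rw [h1, Matrix.det_permute, h2, mul_assoc]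
  inj := by
    intro v hv
    rw [Function.Injective] at hv
    push Not at hv
    obtain ⟨a, b, hab, hne⟩ := hv
    simp only [cyc]
    rw [Matrix.det_zero_of_row_eq hne, zero_mul]
    funext j
    simp [hab]
  bdry := by
    intro w i
    let A : Matrix (Fin d) (Fin d) k := Matrix.of fun i' j => momentCurve d t (w i') j
    let D : (Fin d → k) →ₗ[k] k :=
      (Matrix.detRowAlternating (R := k) (n := Fin d)).toMultilinearMap.toLinearMap A i
    have h1 : ∀ x : V, (Matrix.of fun i' j => momentCurve d t (Function.update w i x i') j) =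
        A.updateRow i (momentCurve d t x) := by
      intro x
      ext i' j
      by_cases h : i' = i
      · subst h
        rw [Matrix.updateRow_self, Matrix.of_apply, Function.update_self]
      · rw [Matrix.updateRow_ne h, Matrix.of_apply, Function.update_of_ne h]
        rfl
    have h2 : ∀ x : V, (∏ l, X (Function.update w i x l) : MvPolynomial V k) =
        X x * ∏ l ∈ Finset.univ.erase i, X (w l) := by
      intro x
      rw [← Finset.mul_prod_erase Finset.univ _ (Finset.mem_univ i), Function.update_self]
      congr 1
      refine Finset.prod_congr rfl (fun l hl => ?_)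
      rw [Function.update_of_ne (Finset.ne_of_mem_erase hl)]
    have h3 : ∀ x : V, cyc d t Φ (Function.update w i x) =
        ∑ j : Fin d, D (Pi.single j 1) *
          Φ (C (momentCurve d t x j) * X x * ∏ l ∈ Finset.univ.erase i, X (w l)) := by
      intro x
      have h4 : Matrix.det (A.updateRow i (momentCurve d t x)) = D (momentCurve d t x) := rfl
      have h5 : D (momentCurve d t x) =
          ∑ j : Fin d, momentCurve d t x j * D (Pi.single j 1) := by
        conv_lhs => rw [← Finset.univ_sum_single (momentCurve d t x)]
        rw [map_sum]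
        refine Finset.sum_congr rfl (fun j _ => ?_)
        rw [← smul_eq_mul, ← map_smul]
        congr 1
        ext w
        simp [Pi.single_apply]
      simp only [cyc]
      rw [h1, h2, h4, h5, Finset.sum_mul]
      refine Finset.sum_congr rfl (fun j _ => ?_)
      have h6 : (C (momentCurve d t x j) * X x * ∏ l ∈ Finset.univ.erase i, X (w l) :
          MvPolynomial V k) =
          momentCurve d t x j • (X x * ∏ l ∈ Finset.univ.erase i, X (w l)) := by
        rw [smul_eq_C_mul, mul_assoc]
      rw [h6, map_smul, smul_eq_mul]
      ring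
    rw [Finset.sum_congr rfl (fun x _ => h3 x), Finset.sum_comm]
    refine Finset.sum_eq_zero (fun j _ => ?_)
    rw [← Finset.mul_sum, ← map_sum, ← Finset.sum_mul]
    have h7 := hθ j (∏ l ∈ Finset.univ.erase i, X (w l))
    rw [theta] at h7
    rw [h7, mul_zero]

/-- A functional killing the `θ_j` and `μ`. -/
lemma supp_down {d : ℕ} (μ : (Fin d → V) → k) (F F' : Finset V) (h : F ⊆ F')
    (hF : F ∉ supportComplex μ) : F' ∉ supportComplex μ := by
  rintro ⟨v, hv, hv'⟩
  exact hF ⟨v, hv, fun x hx => hv' x (h hx)⟩

lemma exists_enum {d : ℕ} (F : Finset V) (hF : F.card = d) :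
    ∃ v : Fin d → V, Function.Injective v ∧ Set.range v = F ∧
      ∀ f : V → MvPolynomial V k, ∏ i, f (v i) = ∏ x ∈ F, f x := by
  subst hF
  refine ⟨fun i => (F.equivFin.symm i : V), ?_, ?_, ?_⟩
  · exact Subtype.val_injective.comp F.equivFin.symm.injective
  · ext x
    simp only [Set.mem_range, Finset.mem_coe]
    constructor
    · rintro ⟨i, rfl⟩
      exact (F.equivFin.symm i).2
    · intro hx
      exact ⟨F.equivFin ⟨x, hx⟩, by simp⟩
  · intro f
    rw [Equiv.prod_comp F.equivFin.symm (fun x : F => f x)]
    exact Finset.prod_coe_sort F f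

/-- `Φ` descends to the reduction. -/
lemma exists_phi {d : ℕ} (t : V → k) (ht : Function.Injective t) (ht0 : ∀ v, t v ≠ 0)
    (Φ : MvPolynomial V k →ₗ[k] k)
    (hθ : ∀ (j : Fin d) (f : MvPolynomial V k), Φ (theta (momentCurve d t) j * f) = 0)
    (hdeg : ∀ s : V →₀ ℕ, s.degree ≠ d → Φ (monomial s 1) = 0) :
    ∃ φ : Red (supportComplex (cyc d t Φ)) (momentCurve d t) →ₗ[k] k,
      ∀ f, φ (Ideal.Quotient.mk _ f) = Φ f := by
  set μ := cyc d t Φ with hμ
  have hsq : ∀ F : Finset V, F ∉ supportComplex μ → F.card = d → Φ (∏ v ∈ F, X v) = 0 := by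
    intro F hF hFd
    obtain ⟨v, hv, hvF, hprod⟩ := exists_enum (k := k) F hFd
    by_contra hne
    refine hF ⟨v, ?_, ?_⟩
    · rw [hμ, cyc]
      refine mul_ne_zero (det_ne_zero t ht ht0 v hv) ?_
      rw [hprod]
      exact hne
    · intro x hx
      rw [hvF]
      exact hx
  have hred := fun s => reduce t ht ht0 (fun F => F ∉ supportComplex μ) (supp_down μ) Φ hθ hsq
    (d - (s : V →₀ ℕ).support.card) s le_rfl
  have hI : (redIdeal (supportComplex μ) (momentCurve d t)).restrictScalars k ≤
      LinearMap.ker Φ := by
    intro f hf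
    rw [Submodule.restrictScalars_mem, redIdeal, Submodule.mem_sup] at hf
    obtain ⟨y, hy, z, hz, rfl⟩ := hf
    rw [LinearMap.mem_ker, map_add]
    have hy' : Φ y = 0 := by
      rw [faceIdeal, Ideal.span, Submodule.mem_span_iff_exists_finset_subset] at hy
      obtain ⟨f, T, hT, _, rfl⟩ := hy
      rw [map_sum]
      refine Finset.sum_eq_zero (fun m hm => ?_)
      obtain ⟨F, hF, rfl⟩ := hT hm
      generalize f (∏ v ∈ F, X v) = g
      rw [smul_eq_mul]
      induction g using MvPolynomial.induction_on' with
      | monomial s a =>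
        have h1 : (∏ v ∈ F, X v : MvPolynomial V k) =
            monomial (∑ v ∈ F, Finsupp.single v 1) 1 := by
          rw [monomial_sum_one]
          rfl
        have h2 : (monomial s a : MvPolynomial V k) * ∏ v ∈ F, X v =
            a • monomial (s + ∑ v ∈ F, Finsupp.single v 1) 1 := by
          rw [h1, monomial_mul, mul_one, smul_monomial, smul_eq_mul, mul_one]
        rw [h2, map_smul]
        by_cases hdg : (s + ∑ v ∈ F, Finsupp.single v 1).degree = d
        · rw [hred _ hdg, smul_zero]
          refine supp_down μ F _ ?_ hF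
          intro x hx
          rw [Finsupp.mem_support_iff, Finsupp.add_apply, Finsupp.finsetSum_apply]
          have : (1 : ℕ) ≤ ∑ i ∈ F, (Finsupp.single i 1) x := by
            refine le_trans ?_ (Finset.single_le_sum (f := fun i => (Finsupp.single i 1) x)
              (fun i _ => Nat.zero_le _) hx)
            simp
          omega
        · rw [hdeg _ hdg, smul_zero]
      | add p q hp hq => rw [add_mul, map_add, hp, hq, add_zero]
    have hz' : Φ z = 0 := by
      rw [Ideal.span, Submodule.mem_span_range_iff_exists_fun] at hz
      obtain ⟨c, rfl⟩ := hz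
      rw [map_sum]
      refine Finset.sum_eq_zero (fun j _ => ?_)
      rw [smul_eq_mul, mul_comm]
      exact hθ j _
    rw [hy', hz', add_zero]
  refine ⟨(Submodule.liftQ _ Φ hI).comp
    (Submodule.Quotient.restrictScalarsEquiv k
      (redIdeal (supportComplex μ) (momentCurve d t))).symm.toLinearMap, ?_⟩
  intro f
  rfl

end construct

end Pool.Agent.W5h13.MC
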