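import Pool.Agent.W5h13.MC2

/-!
Cycles with a given dual generator.
-/

set_option autoImplicit false

namespace Pool.Agent.W5h13.MC

open MvPolynomial Finset

universe u

section main
variable {V : Type} [Fintype V] [DecidableEq V] {k : Type u} [Field k]

theorem construct {d : ℕ} (t : V → k) (ht : Function.Injective t) (ht0 : ∀ v, t v ≠ 0)
    {σ : Type} [Fintype σ] [DecidableEq σ] (hσ : d + Fintype.card σ ≤ Fintype.card V)
    (ψ : MvPolynomial σ k →ₗ[k] k)
    (hψ : ∀ n (f : MvPolynomial σ k), f.IsHomogeneous n → n ≠ d → ψ f = 0)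
    (f₀ : MvPolynomial σ k) (hf₀ : f₀.IsHomogeneous d) (hne : ψ f₀ ≠ 0) :
    ∃ (μ : (Fin d → V) → k) (γ : MvPolynomial V k →ₐ[k] MvPolynomial σ k)
      (lf : MvPolynomial σ k →ₐ[k] MvPolynomial V k),
      IsCycle d μ ∧ μ ≠ 0 ∧
      (∃ φ : Red (supportComplex μ) (momentCurve d t) →ₗ[k] k,
        IsDegreeMap μ (momentCurve d t) φ) ∧
      (∀ n (f : MvPolynomial σ k), f.IsHomogeneous n → (lf f).IsHomogeneous n) ∧
      (∀ f, γ (lf f) = f) ∧
      (∀ n (f : MvPolynomial V k), f.IsHomogeneous n → (γ f).IsHomogeneous n) ∧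
      ∀ φ : Red (supportComplex μ) (momentCurve d t) →ₗ[k] k,
        IsDegreeMap μ (momentCurve d t) φ →
        ∀ f : MvPolynomial V k, f.IsHomogeneous d → φ (Ideal.Quotient.mk _ f) = ψ (γ f) := by
  obtain ⟨g, c, hg, hgc⟩ := exists_gale (d := d) t hσ
  let γ : MvPolynomial V k →ₐ[k] MvPolynomial σ k := aeval (fun v => ∑ a, C (g a v) * X a)
  let lf : MvPolynomial σ k →ₐ[k] MvPolynomial V k := aeval (fun a => ∑ v, C (c a v) * X v)
  have hlin : ∀ {τ : Type} [Fintype τ] (r : τ → k),
      (∑ a, C (r a) * X a : MvPolynomial τ k).IsHomogeneous 1 := by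
    intro τ _ r
    refine IsHomogeneous.sum _ _ _ (fun a _ => ?_)
    have := (isHomogeneous_C τ (r a)).mul (isHomogeneous_X k a)
    simpa using this
  have hγlf : ∀ f, γ (lf f) = f := by
    intro f
    have h1 : γ.comp lf = AlgHom.id k _ := by
      refine MvPolynomial.algHom_ext (fun a => ?_)
      simp only [AlgHom.comp_apply, lf, aeval_X, AlgHom.id_apply]
      rw [map_sum]
      simp only [map_mul]
      have h2 : ∀ v, γ (X v) = ∑ b, C (g b v) * X b := fun v => by simp only [γ, aeval_X]
      have h3 : ∀ r, γ (C r) = C r := fun r => by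
        simp only [γ]
        rw [aeval_C, algebraMap_eq]
      simp only [h2, h3, Finset.mul_sum]
      rw [Finset.sum_comm]
      rw [Finset.sum_eq_single a]
      · have h4 : ∀ v, (C (c a v) * (C (g a v) * X a) : MvPolynomial σ k) =
            C (c a v * g a v) * X a := fun v => by rw [C_mul, mul_assoc]
        rw [Finset.sum_congr rfl (fun v _ => h4 v), ← Finset.sum_mul, ← map_sum, hgc a a,
          if_pos rfl, map_one, one_mul]
      · intro b _ hb
        have h4 : ∀ v, (C (c a v) * (C (g b v) * X b) : MvPolynomial σ k) =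
            C (c a v * g b v) * X b := fun v => by rw [C_mul, mul_assoc]
        rw [Finset.sum_congr rfl (fun v _ => h4 v), ← Finset.sum_mul, ← map_sum, hgc a b,
          if_neg (Ne.symm hb), map_zero, zero_mul]
      · intro h
        exact absurd (Finset.mem_univ a) h
    exact DFunLike.congr_fun h1 f
  have hγhom : ∀ n (f : MvPolynomial V k), f.IsHomogeneous n → (γ f).IsHomogeneous n := by
    intro n f hf
    have := hf.aeval (fun v => ∑ a, C (g a v) * X a) (fun v => hlin (fun a => g a v))
    rw [one_mul] at this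
    exact this
  have hlfhom : ∀ n (f : MvPolynomial σ k), f.IsHomogeneous n → (lf f).IsHomogeneous n := by
    intro n f hf
    have := hf.aeval (fun a => ∑ v, C (c a v) * X v) (fun a => hlin (fun v => c a v))
    rw [one_mul] at this
    exact this
  let Φ : MvPolynomial V k →ₗ[k] k := ψ.comp γ.toLinearMap
  have hΦ : ∀ f, Φ f = ψ (γ f) := fun f => rfl
  have hγθ : ∀ j : Fin d, γ (theta (momentCurve d t) j) = 0 := by
    intro j
    simp only [theta, map_sum, map_mul]
    have h2 : ∀ v, γ (X v) = ∑ b, C (g b v) * X b := fun v => by simp only [γ, aeval_X]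
    have h3 : ∀ r, γ (C r) = C r := fun r => by
      simp only [γ]
      rw [aeval_C, algebraMap_eq]
    simp only [h2, h3, Finset.mul_sum]
    rw [Finset.sum_comm]
    refine Finset.sum_eq_zero (fun a _ => ?_)
    have h4 : ∀ v, (C (momentCurve d t v j) * (C (g a v) * X a) : MvPolynomial σ k) =
        C (momentCurve d t v j * g a v) * X a := fun v => by rw [C_mul, mul_assoc]
    rw [Finset.sum_congr rfl (fun v _ => h4 v), ← Finset.sum_mul, ← map_sum]
    have h5 : ∑ v, momentCurve d t v j * g a v = 0 := hg j a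
    rw [h5, map_zero, zero_mul]
  have hθ : ∀ (j : Fin d) (f : MvPolynomial V k), Φ (theta (momentCurve d t) j * f) = 0 := by
    intro j f
    rw [hΦ, map_mul, hγθ, zero_mul, map_zero]
  have hdeg : ∀ s : V →₀ ℕ, s.degree ≠ d → Φ (monomial s 1) = 0 := by
    intro s hs
    rw [hΦ]
    exact hψ s.degree _ (hγhom _ _ (isHomogeneous_monomial 1 rfl)) hs
  -- killing squarefree monomials is enough
  have hkill : ∀ D : MvPolynomial V k →ₗ[k] k,
      (∀ (j : Fin d) (f : MvPolynomial V k), D (theta (momentCurve d t) j * f) = 0) →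
      (∀ v : Fin d → V, Function.Injective v → D (∏ i, X (v i)) = 0) →
      ∀ f : MvPolynomial V k, f.IsHomogeneous d → D f = 0 := by
    intro D hDθ hDsq f hf
    have hsq : ∀ F : Finset V, True → F.card = d → D (∏ v ∈ F, X v) = 0 := by
      intro F _ hFd
      obtain ⟨v, hv, _, hprod⟩ := exists_enum (k := k) F hFd
      rw [← hprod]
      exact hDsq v hv
    have hred := fun s => reduce t ht ht0 (fun _ => True) (fun _ _ _ _ => trivial) D hDθ hsq
      (d - (s : V →₀ ℕ).support.card) s le_rfl
    rw [f.as_sum, map_sum]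
    refine Finset.sum_eq_zero (fun s hs => ?_)
    have h1 : s.degree = d := by
      have := hf (mem_support_iff.1 hs)
      rw [← this, Finsupp.degree_eq_weight_one]
      rfl
    have h2 : (monomial s (coeff s f) : MvPolynomial V k) = coeff s f • monomial s 1 := by
      rw [smul_monomial, smul_eq_mul, mul_one]
    rw [h2, map_smul, hred s h1 trivial, smul_zero]
  obtain ⟨φ, hφ⟩ := exists_phi t ht ht0 Φ hθ hdeg
  refine ⟨cyc d t Φ, γ, lf, cyc_isCycle t Φ hθ, ?_, ⟨φ, fun v => ?_⟩, hlfhom, hγlf, hγhom, ?_⟩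
  · intro h0
    apply hne
    have h1 := hkill Φ hθ (fun v hv => by
      have h2 := congrFun h0 v
      rw [cyc] at h2
      exact (mul_eq_zero.1 h2).resolve_left (det_ne_zero t ht ht0 v hv)) (lf f₀) (hlfhom _ _ hf₀)
    rw [hΦ, hγlf] at h1
    exact h1
  · rw [hφ]
    rfl
  · intro φ' hφ' f hf
    let q : MvPolynomial V k →ₗ[k] Red (supportComplex (cyc d t Φ)) (momentCurve d t) :=
      (Ideal.Quotient.mkₐ k (redIdeal (supportComplex (cyc d t Φ)) (momentCurve d t))).toLinearMap
    have hq : ∀ f, q f = Ideal.Quotient.mk _ f := fun f => rfl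
    have h1 := hkill (φ'.comp q - Φ) (fun j f => by
      rw [LinearMap.sub_apply, LinearMap.comp_apply, hθ, sub_zero, hq]
      have h2 : theta (momentCurve d t) j * f ∈
          redIdeal (supportComplex (cyc d t Φ)) (momentCurve d t) := by
        refine Ideal.mul_mem_right _ _ ?_
        exact Ideal.mem_sup_right (Ideal.subset_span ⟨j, rfl⟩)
      rw [Ideal.Quotient.eq_zero_iff_mem.2 h2, map_zero]) (fun v hv => by
      rw [LinearMap.sub_apply, LinearMap.comp_apply, hq, sub_eq_zero]
      have h2 := hφ' v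
      rw [cyc] at h2
      exact mul_left_cancel₀ (det_ne_zero t ht ht0 v hv) h2) f hf
    rw [LinearMap.sub_apply, LinearMap.comp_apply, hq, sub_eq_zero] at h1
    exact h1

end main

end Pool.Agent.W5h13.MC
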