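import Pool.Agent.W5h13.MC3

/-!
The cases.
-/

set_option autoImplicit false

namespace Pool.Agent.W5h13.MC

open MvPolynomial Finset

universe u

section gradings
variable {V : Type} [Fintype V] {k : Type u} [Field k] {d : ℕ}
  {Δ : Set (Finset V)} {p : V → Fin d → k}

lemma mk_mem_gr {n : ℕ} {f : MvPolynomial V k} (hf : f.IsHomogeneous n) :
    (Ideal.Quotient.mk (redIdeal Δ p) f : Red Δ p) ∈ gr Δ p n :=
  ⟨f, hf, rfl⟩

lemma exists_of_mem_gr {n : ℕ} {a : Red Δ p} (ha : a ∈ gr Δ p n) :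
    ∃ f : MvPolynomial V k, f.IsHomogeneous n ∧ Ideal.Quotient.mk (redIdeal Δ p) f = a := by
  obtain ⟨f, hf, h⟩ := ha
  exact ⟨f, hf, h⟩

end gradings

section perazzo
variable {k : Type u} [Field k]

/-- exponents of the Perazzo form -/
noncomputable def pexp (d : ℕ) (i : Fin 3) : (Fin 3 ⊕ Fin 2) →₀ ℕ :=
  Finsupp.single (Sum.inl i) 1 + Finsupp.single (Sum.inr 0) (d - 1 - i.val) +
    Finsupp.single (Sum.inr 1) i.val

/-- the functional dual to the Perazzo form -/
noncomputable def perazzo (k : Type u) [Field k] (d : ℕ) :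
    MvPolynomial (Fin 3 ⊕ Fin 2) k →ₗ[k] k :=
  ∑ i : Fin 3, lcoeff k (pexp d i)

lemma perazzo_apply (d : ℕ) (f : MvPolynomial (Fin 3 ⊕ Fin 2) k) :
    perazzo k d f = ∑ i : Fin 3, coeff (pexp d i) f := by
  simp [perazzo, lcoeff]

lemma pexp_inl (d : ℕ) (i j : Fin 3) : pexp d i (Sum.inl j) = if i = j then 1 else 0 := by
  simp [pexp, Finsupp.single_apply]

lemma pexp_inr1 (d : ℕ) (i : Fin 3) : pexp d i (Sum.inr 1) = i.val := by
  simp [pexp, Finsupp.single_apply]

lemma pexp_degree {d : ℕ} (hd : 3 ≤ d) (i : Fin 3) : (pexp d i).degree = d := by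
  simp only [pexp, map_add, Finsupp.degree_single]
  have := i.isLt
  omega

lemma perazzo_deg {d : ℕ} (hd : 3 ≤ d) (n : ℕ) (f : MvPolynomial (Fin 3 ⊕ Fin 2) k)
    (hf : f.IsHomogeneous n) (hn : n ≠ d) : perazzo k d f = 0 := by
  rw [perazzo_apply]
  refine Finset.sum_eq_zero (fun i _ => ?_)
  refine hf.coeff_eq_zero ?_
  rw [pexp_degree hd]
  exact Ne.symm hn

lemma perazzo_XX (d : ℕ) (i j : Fin 3) (f : MvPolynomial (Fin 3 ⊕ Fin 2) k) :
    perazzo k d (X (Sum.inl i) * (X (Sum.inl j) * f)) = 0 := by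
  rw [perazzo_apply]
  refine Finset.sum_eq_zero (fun l _ => ?_)
  rw [coeff_X_mul']
  split_ifs with h1
  · rw [coeff_X_mul', if_neg]
    rw [Finsupp.mem_support_iff, pexp_inl] at h1
    have hl : l = i := by
      by_contra hne
      rw [if_neg hne] at h1
      exact h1 rfl
    subst hl
    rw [Finsupp.mem_support_iff, not_not, Finsupp.tsub_apply, pexp_inl, Finsupp.single_apply]
    simp only [Sum.inl.injEq]
    split_ifs <;> rfl
  · rfl

lemma perazzo_mon {d : ℕ} (hd : 3 ≤ d) (i j : Fin 3) :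
    perazzo k d (X (Sum.inl i) * (X (Sum.inr 0) ^ (d - 1 - j.val) * X (Sum.inr 1) ^ j.val)) =
      if i = j then 1 else 0 := by
  have h1 : (X (Sum.inl i) * (X (Sum.inr 0) ^ (d - 1 - j.val) * X (Sum.inr 1) ^ j.val) :
      MvPolynomial (Fin 3 ⊕ Fin 2) k) =
      monomial (Finsupp.single (Sum.inl i) 1 + (Finsupp.single (Sum.inr 0) (d - 1 - j.val) +
        Finsupp.single (Sum.inr 1) j.val)) 1 := by
    rw [X_pow_eq_monomial, X_pow_eq_monomial, X, monomial_mul, monomial_mul, one_mul, one_mul]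
  rw [h1, perazzo_apply]
  simp only [coeff_monomial]
  by_cases hij : i = j
  · subst hij
    rw [if_pos rfl, Finset.sum_eq_single i]
    · rw [if_pos]
      rw [pexp, add_assoc]
    · intro b _ hb
      rw [if_neg]
      intro h
      have := congrArg (fun s => s (Sum.inl b)) h
      simp only [pexp_inl] at this
      simp [Finsupp.single_apply, Ne.symm hb] at this
    · intro h
      exact absurd (Finset.mem_univ _) h
  · rw [if_neg hij]
    refine Finset.sum_eq_zero (fun l _ => ?_)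
    rw [if_neg]
    intro h
    have h2 := congrArg (fun s => s (Sum.inl i)) h
    have h3 := congrArg (fun s => s (Sum.inr 1)) h
    simp only [pexp_inl, pexp_inr1] at h2 h3
    simp [Finsupp.single_apply] at h2 h3
    have h4 : l = i := by
      by_contra hne
      simp [hne] at h2
    exact hij (Fin.ext (by rw [h3, h4]))

end perazzo

section failing
variable {V : Type} [Fintype V] [DecidableEq V] {k : Type u} [Field k]

/-- Counterexamples for cycles, `d ≥ 3`. -/
theorem fails_three {d : ℕ} (hd : 3 ≤ d) (hV : d + 5 ≤ Fintype.card V) (t : V → k)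
    (ht : Function.Injective t) (ht0 : ∀ v, t v ≠ 0) :
    ∃ μ : (Fin d → V) → k, IsCycle d μ ∧ μ ≠ 0 ∧
      (∃ φ : Red (supportComplex μ) (momentCurve d t) →ₗ[k] k,
        IsDegreeMap μ (momentCurve d t) φ) ∧
      ∀ φ : Red (supportComplex μ) (momentCurve d t) →ₗ[k] k,
        IsDegreeMap μ (momentCurve d t) φ → ¬ LefschetzMod φ := by
  have hcard : d + Fintype.card (Fin 3 ⊕ Fin 2) ≤ Fintype.card V := by simpa using hV
  have hXhom : ∀ s : Fin 3 ⊕ Fin 2, (X s : MvPolynomial (Fin 3 ⊕ Fin 2) k).IsHomogeneous 1 :=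
    fun s => isHomogeneous_X k s
  have hmonhom : ∀ j : Fin 3, (X (Sum.inr 0) ^ (d - 1 - j.val) * X (Sum.inr 1) ^ j.val :
      MvPolynomial (Fin 3 ⊕ Fin 2) k).IsHomogeneous (d - 1) := by
    intro j
    have h1 := ((hXhom (Sum.inr 0)).pow (d - 1 - j.val)).mul ((hXhom (Sum.inr 1)).pow j.val)
    have h2 : 1 * (d - 1 - j.val) + 1 * j.val = d - 1 := by
      have := j.isLt
      omega
    rwa [h2] at h1
  have hf₀ : (X (Sum.inl 0) * (X (Sum.inr 0) ^ (d - 1 - (0 : Fin 3).val) *
      X (Sum.inr 1) ^ (0 : Fin 3).val) : MvPolynomial (Fin 3 ⊕ Fin 2) k).IsHomogeneous d := by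
    have h1 := (hXhom (Sum.inl 0)).mul (hmonhom 0)
    have h2 : 1 + (d - 1) = d := by omega
    rwa [h2] at h1
  obtain ⟨μ, γ, lf, hcyc, hμ, hφ, hlf, hγlf, hγ, hall⟩ := construct t ht ht0 hcard (perazzo k d)
    (perazzo_deg hd) _ hf₀ (by rw [perazzo_mon hd, if_pos rfl]; exact one_ne_zero)
  refine ⟨μ, hcyc, hμ, hφ, ?_⟩
  rintro φ hdm ⟨ℓ, hℓ, H⟩
  obtain ⟨ℓ₀, hℓ₀, rfl⟩ := exists_of_mem_gr hℓ
  have hL := hγ 1 ℓ₀ hℓ₀
  set L := γ ℓ₀ with hLdef
  -- a nonzero solution of two linear equations in three unknowns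
  let N : (Fin 3 → k) →ₗ[k] (Fin 2 → k) :=
    { toFun := fun y b => perazzo k d (L ^ (d - 2) * (∑ i, C (y i) * X (Sum.inl i)) *
        X (Sum.inr b))
      map_add' := by
        intro y z
        funext b
        simp only [Pi.add_apply, map_add, add_mul, Finset.sum_add_distrib, mul_add]
      map_smul' := by
        intro r y
        funext b
        have h1 : (L ^ (d - 2) * (∑ i, C ((r • y) i) * X (Sum.inl i)) * X (Sum.inr b) :
            MvPolynomial (Fin 3 ⊕ Fin 2) k) =
            r • (L ^ (d - 2) * (∑ i, C (y i) * X (Sum.inl i)) * X (Sum.inr b)) := by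
          simp only [Pi.smul_apply, smul_eq_mul, C_mul, mul_assoc, smul_eq_C_mul]
          rw [← Finset.mul_sum]
          ring
        rw [h1, map_smul]
        rfl }
  have hN : LinearMap.ker N ≠ ⊥ := LinearMap.ker_ne_bot_of_finrank_lt (by simp)
  obtain ⟨y, hy, hy0⟩ := (Submodule.ne_bot_iff _).1 hN
  set Y : MvPolynomial (Fin 3 ⊕ Fin 2) k := ∑ i, C (y i) * X (Sum.inl i) with hY
  have hYhom : Y.IsHomogeneous 1 := by
    refine IsHomogeneous.sum _ _ _ (fun a _ => ?_)
    have := (isHomogeneous_C (Fin 3 ⊕ Fin 2) (y a)).mul (hXhom (Sum.inl a))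
    simpa using this
  have hLY : ∀ g : MvPolynomial (Fin 3 ⊕ Fin 2) k, g.IsHomogeneous 1 →
      perazzo k d (L ^ (d - 2) * Y * g) = 0 := by
    intro g hg
    have hg' : g ∈ homogeneousSubmodule (Fin 3 ⊕ Fin 2) k 1 := hg
    rw [homogeneousSubmodule_one_eq_span_X] at hg'
    induction hg' using Submodule.span_induction with
    | mem x hx =>
      obtain ⟨s, rfl⟩ := hx
      rcases s with i | b
      · rw [hY, Finset.mul_sum, Finset.sum_mul, map_sum]
        refine Finset.sum_eq_zero (fun j _ => ?_)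
        have h1 : (L ^ (d - 2) * (C (y j) * X (Sum.inl j)) * X (Sum.inl i) :
            MvPolynomial (Fin 3 ⊕ Fin 2) k) =
            y j • (X (Sum.inl j) * (X (Sum.inl i) * L ^ (d - 2))) := by
          rw [smul_eq_C_mul]; ring
        rw [h1, map_smul, perazzo_XX, smul_zero]
      · exact congrFun (LinearMap.mem_ker.1 hy) b
    | zero => rw [mul_zero, map_zero]
    | add x z hx hz ihx ihz =>
      have hx1 : x.IsHomogeneous 1 := by
        rw [← homogeneousSubmodule_one_eq_span_X] at hx; exact hx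
      have hz1 : z.IsHomogeneous 1 := by
        rw [← homogeneousSubmodule_one_eq_span_X] at hz; exact hz
      rw [mul_add, map_add, ihx hx1, ihz hz1, add_zero]
    | smul r x hx ihx =>
      have hx1 : x.IsHomogeneous 1 := by
        rw [← homogeneousSubmodule_one_eq_span_X] at hx; exact hx
      rw [mul_smul_comm, map_smul, ihx hx1, smul_zero]
  have ha : (Ideal.Quotient.mk (redIdeal (supportComplex μ) (momentCurve d t)) (lf Y)) ∈
      radical φ 1 := by
    refine (H 1 (by omega)).1 _ (mk_mem_gr (hlf 1 Y hYhom)) ?_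
    have hprodhom : (ℓ₀ ^ (d - 2 * 1) * lf Y).IsHomogeneous (d - 1) := by
      have h1 := (hℓ₀.pow (d - 2 * 1)).mul (hlf 1 Y hYhom)
      have h2 : 1 * (d - 2 * 1) + 1 = d - 1 := by omega
      rwa [h2] at h1
    refine ⟨?_, ?_⟩
    · rw [← map_pow, ← map_mul]
      exact mk_mem_gr hprodhom
    · intro b hb
      have h3 : d - (d - 1) = 1 := by omega
      rw [h3] at hb
      obtain ⟨b₀, hb₀, rfl⟩ := exists_of_mem_gr hb
      rw [← map_pow, ← map_mul, ← map_mul, hall φ hdm]
      · have h5 : γ (ℓ₀ ^ (d - 2 * 1) * lf Y * b₀) = L ^ (d - 2) * Y * γ b₀ := by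
          rw [map_mul γ, map_mul γ, map_pow γ, hγlf]
        rw [h5]
        exact hLY _ (hγ 1 b₀ hb₀)
      · have h1 := hprodhom.mul hb₀
        have h2 : d - 1 + 1 = d := by omega
        rwa [h2] at h1
  obtain ⟨i, hi⟩ : ∃ i, y i ≠ 0 := by
    by_contra hcon
    push Not at hcon
    exact hy0 (funext hcon)
  apply hi
  have h4 := ha.2 _ (mk_mem_gr (hlf _ _ (hmonhom i)))
  rw [← map_mul, hall φ hdm] at h4
  · rw [map_mul γ, hγlf, hγlf, hY, Finset.sum_mul, map_sum] at h4
    have h5 : ∀ j : Fin 3, perazzo k d (C (y j) * X (Sum.inl j) *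
        (X (Sum.inr 0) ^ (d - 1 - i.val) * X (Sum.inr 1) ^ i.val)) =
        if j = i then y j else 0 := by
      intro j
      rw [mul_assoc, ← smul_eq_C_mul, map_smul, perazzo_mon hd, smul_eq_mul]
      split_ifs <;> simp
    rw [Finset.sum_congr rfl (fun j _ => h5 j), Finset.sum_ite_eq' Finset.univ i,
      if_pos (Finset.mem_univ i)] at h4
    exact h4
  · have h1 := (hlf 1 Y hYhom).mul (hlf _ _ (hmonhom i))
    have h2 : 1 + (d - 1) = d := by omega
    rwa [h2] at h1

/-- Counterexamples for cycles, `d = 2` in characteristic two. -/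
theorem fails_two (h2k : (2 : k) = 0) (hV : 2 + 2 ≤ Fintype.card V) (t : V → k)
    (ht : Function.Injective t) (ht0 : ∀ v, t v ≠ 0) :
    ∃ μ : (Fin 2 → V) → k, IsCycle 2 μ ∧ μ ≠ 0 ∧
      (∃ φ : Red (supportComplex μ) (momentCurve 2 t) →ₗ[k] k,
        IsDegreeMap μ (momentCurve 2 t) φ) ∧
      ∀ φ : Red (supportComplex μ) (momentCurve 2 t) →ₗ[k] k,
        IsDegreeMap μ (momentCurve 2 t) φ → ¬ LefschetzMod φ := by
  have hcard : 2 + Fintype.card (Fin 2) ≤ Fintype.card V := by simpa using hV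
  let m : Fin 2 →₀ ℕ := Finsupp.single 0 1 + Finsupp.single 1 1
  have hm : m.degree = 2 := by
    simp only [m, map_add, Finsupp.degree_single]
  let ψ : MvPolynomial (Fin 2) k →ₗ[k] k := lcoeff k m
  have hψ : ∀ f, ψ f = coeff m f := fun f => rfl
  have hXX : ∀ i : Fin 2, ψ (X i * X i) = 0 := by
    intro i
    rw [hψ, coeff_X_mul']
    split_ifs
    · rw [coeff_X, if_neg]
      intro h
      have := congrArg (fun s => s i) h
      fin_cases i <;> simp [m, Finsupp.single_apply] at this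
    · rfl
  have h01 : ψ (X 0 * X 1) = 1 := by
    rw [hψ]
    have : (X 0 * X 1 : MvPolynomial (Fin 2) k) = monomial m 1 := by
      simp only [X, m, monomial_mul, one_mul]
    rw [this, coeff_monomial, if_pos rfl]
  obtain ⟨μ, γ, lf, hcyc, hμ, hφ, hlf, hγlf, hγ, hall⟩ := construct t ht ht0 hcard ψ
    (fun n f hf hn => hf.coeff_eq_zero (by rw [hm]; exact Ne.symm hn)) (X 0 * X 1)
    ((isHomogeneous_X k 0).mul (isHomogeneous_X k 1)) (by rw [h01]; exact one_ne_zero)
  refine ⟨μ, hcyc, hμ, hφ, ?_⟩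
  rintro φ hdm ⟨ℓ, hℓ, H⟩
  obtain ⟨ℓ₀, hℓ₀, rfl⟩ := exists_of_mem_gr hℓ
  have hL := hγ 1 ℓ₀ hℓ₀
  have hsq : ∀ g : MvPolynomial (Fin 2) k, g.IsHomogeneous 1 → ψ (g * g) = 0 := by
    intro g hg
    have hg' : g ∈ homogeneousSubmodule (Fin 2) k 1 := hg
    rw [homogeneousSubmodule_one_eq_span_X] at hg'
    induction hg' using Submodule.span_induction with
    | mem x hx =>
      obtain ⟨s, rfl⟩ := hx
      exact hXX s
    | zero => rw [mul_zero, map_zero]
    | add x z hx hz ihx ihz =>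
      have hx1 : x.IsHomogeneous 1 := by
        rw [← homogeneousSubmodule_one_eq_span_X] at hx; exact hx
      have hz1 : z.IsHomogeneous 1 := by
        rw [← homogeneousSubmodule_one_eq_span_X] at hz; exact hz
      have h3 : (x + z) * (x + z) = x * x + z * z + (2 : k) • (x * z) := by
        rw [smul_eq_C_mul, map_ofNat]
        ring
      rw [h3, map_add, map_add, map_smul, ihx hx1, ihz hz1, h2k]
      simp
    | smul r x hx ihx =>
      have hx1 : x.IsHomogeneous 1 := by
        rw [← homogeneousSubmodule_one_eq_span_X] at hx; exact hx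
      rw [smul_mul_smul_comm, map_smul, ihx hx1, smul_zero]
  have h1 : (Ideal.Quotient.mk (redIdeal (supportComplex μ) (momentCurve 2 t)) 1) ∈
      radical φ 0 := by
    refine (H 0 (by omega)).1 _ (mk_mem_gr (isHomogeneous_one V k)) ?_
    have hprodhom : (ℓ₀ ^ (2 - 2 * 0) * 1).IsHomogeneous (2 - 0) := by
      have h1 := (hℓ₀.pow (2 - 2 * 0)).mul (isHomogeneous_one V k)
      simpa using h1
    refine ⟨?_, ?_⟩
    · rw [← map_pow, ← map_mul]
      exact mk_mem_gr hprodhom
    · intro b hb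
      obtain ⟨b₀, hb₀, rfl⟩ := exists_of_mem_gr hb
      rw [← map_pow, ← map_mul, ← map_mul, hall φ hdm]
      · obtain ⟨c, hc⟩ : ∃ c : k, b₀ = C c := by
          have hb₀' : b₀.totalDegree = 0 := by
            by_cases hz : b₀ = 0
            · rw [hz]; exact totalDegree_zero
            · exact hb₀.totalDegree hz
          exact ⟨_, totalDegree_eq_zero_iff_eq_C.1 hb₀'⟩
        rw [hc, mul_one, mul_comm, ← smul_eq_C_mul, map_smul, map_smul, map_pow, pow_two]
        rw [hsq _ hL, smul_zero]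
      · have h1 := hprodhom.mul hb₀
        simpa using h1
  have h4 := h1.2 (Ideal.Quotient.mk _ (lf (X 0 * X 1)))
    (mk_mem_gr (hlf _ _ ((isHomogeneous_X k 0).mul (isHomogeneous_X k 1))))
  rw [map_one, one_mul, hall φ hdm, hγlf, h01] at h4
  · exact one_ne_zero h4
  · exact hlf _ _ ((isHomogeneous_X k 0).mul (isHomogeneous_X k 1))

end failing

end Pool.Agent.W5h13.MC
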