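import Pool.Agent.W5h13.MC4

/-!
Positive cases.
-/

set_option autoImplicit false

namespace Pool.Agent.W5h13.MC

open MvPolynomial Finset

universe u

section positive
variable {V : Type} [Fintype V] {k : Type u} [Field k]

/-- degree zero elements are constants -/
lemma gr_zero {d : ℕ} {Δ : Set (Finset V)} {p : V → Fin d → k} {a : Red Δ p}
    (ha : a ∈ gr Δ p 0) : ∃ c : k, a = Ideal.Quotient.mk (redIdeal Δ p) (C c) := by
  obtain ⟨b₀, hb₀, rfl⟩ := exists_of_mem_gr ha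
  have hb₀' : b₀.totalDegree = 0 := by
    by_cases hz : b₀ = 0
    · rw [hz]; exact totalDegree_zero
    · exact hb₀.totalDegree hz
  exact ⟨_, by rw [totalDegree_eq_zero_iff_eq_C.1 hb₀']⟩

lemma phi_C_mul {d : ℕ} {Δ : Set (Finset V)} {p : V → Fin d → k} (φ : Red Δ p →ₗ[k] k) (c : k)
    (x : Red Δ p) : φ (Ideal.Quotient.mk (redIdeal Δ p) (C c) * x) = c * φ x := by
  have h : Ideal.Quotient.mk (redIdeal Δ p) (C c) * x = c • x := by
    obtain ⟨f, rfl⟩ := Ideal.Quotient.mk_surjective x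
    rw [← map_mul, ← smul_eq_C_mul]
    rfl
  rw [h, map_smul, smul_eq_mul]

/-- The condition for `j = 0`. -/
lemma zero_cond {d : ℕ} {Δ : Set (Finset V)} {p : V → Fin d → k} (φ : Red Δ p →ₗ[k] k)
    (ℓ : Red Δ p) (hℓ : ℓ ∈ gr Δ p 1) (hφ : φ (ℓ ^ d) ≠ 0) :
    (∀ a ∈ gr Δ p 0, ℓ ^ (d - 2 * 0) * a ∈ radical φ (d - 0) → a ∈ radical φ 0) ∧
    (∀ b ∈ gr Δ p (d - 0), ∃ a ∈ gr Δ p 0, b - ℓ ^ (d - 2 * 0) * a ∈ radical φ (d - 0)) := by
  have hone : (1 : Red Δ p) ∈ gr Δ p 0 := by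
    have := mk_mem_gr (Δ := Δ) (p := p) (isHomogeneous_one V k)
    rwa [map_one] at this
  constructor
  · intro a ha h
    obtain ⟨c, rfl⟩ := gr_zero ha
    have h1 := h.2 1 (by simpa using hone)
    rw [mul_one, mul_comm, phi_C_mul] at h1
    have h2 : c = 0 := (mul_eq_zero.1 h1).resolve_right hφ
    subst h2
    refine ⟨ha, fun b _ => ?_⟩
    rw [phi_C_mul, zero_mul]
  · intro b hb
    refine ⟨Ideal.Quotient.mk (redIdeal Δ p) (C (φ b / φ (ℓ ^ d))),
      mk_mem_gr (isHomogeneous_C V _), ?_, ?_⟩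
    · obtain ⟨b₀, hb₀, rfl⟩ := exists_of_mem_gr hb
      obtain ⟨ℓ₀, hℓ₀, rfl⟩ := exists_of_mem_gr hℓ
      rw [← map_pow, ← map_mul, ← map_sub]
      refine mk_mem_gr (IsHomogeneous.sub hb₀ ?_)
      have h1 := (hℓ₀.pow (d - 2 * 0)).mul (isHomogeneous_C V (φ (Ideal.Quotient.mk _ b₀) /
        φ (Ideal.Quotient.mk (redIdeal Δ p) ℓ₀ ^ d)))
      simpa using h1
    · intro x hx
      have hx' : x ∈ gr Δ p 0 := by simpa using hx
      obtain ⟨c, rfl⟩ := gr_zero hx'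
      rw [mul_comm _ (Ideal.Quotient.mk (redIdeal Δ p) (C c)), phi_C_mul, map_sub,
        mul_comm (ℓ ^ (d - 2 * 0)), phi_C_mul]
      have h2 : φ b / φ (ℓ ^ d) * φ (ℓ ^ (d - 2 * 0)) = φ b := by
        rw [Nat.mul_zero, Nat.sub_zero]
        field_simp
      rw [h2, sub_self, mul_zero]

theorem holds_one (t : V → k) (μ : (Fin 1 → V) → k) (hμ : μ ≠ 0)
    (φ : Red (supportComplex μ) (momentCurve 1 t) →ₗ[k] k)
    (hφ : IsDegreeMap μ (momentCurve 1 t) φ) : LefschetzMod φ := by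
  obtain ⟨v, hv⟩ := Function.ne_iff.1 hμ
  have h1 := hφ v
  have h2 : φ (Ideal.Quotient.mk _ (X (v 0))) ≠ 0 := by
    intro h
    rw [Fin.prod_univ_one, h, mul_zero] at h1
    exact hv h1.symm
  refine ⟨_, mk_mem_gr (isHomogeneous_X k (v 0)), ?_⟩
  intro j hj
  have hj0 : j = 0 := by omega
  subst hj0
  exact zero_cond φ _ (mk_mem_gr (isHomogeneous_X k (v 0))) (by rwa [pow_one])

theorem holds_two (h2k : (2 : k) ≠ 0) (t : V → k) (μ : (Fin 2 → V) → k) (hμ : μ ≠ 0)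
    (φ : Red (supportComplex μ) (momentCurve 2 t) →ₗ[k] k)
    (hφ : IsDegreeMap μ (momentCurve 2 t) φ) : LefschetzMod φ := by
  obtain ⟨v, hv⟩ := Function.ne_iff.1 hμ
  have h1 := hφ v
  have h2 : φ (Ideal.Quotient.mk _ (X (v 0) * X (v 1))) ≠ 0 := by
    intro h
    rw [Fin.prod_univ_two, h, mul_zero] at h1
    exact hv h1.symm
  obtain ⟨ℓ, hℓ, hℓ2⟩ : ∃ ℓ ∈ gr (supportComplex μ) (momentCurve 2 t) 1, φ (ℓ ^ 2) ≠ 0 := by
    by_contra hcon
    push Not at hcon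
    have e1 := hcon _ (mk_mem_gr (isHomogeneous_X k (v 0)))
    have e2 := hcon _ (mk_mem_gr (isHomogeneous_X k (v 1)))
    have e3 := hcon _ (mk_mem_gr ((isHomogeneous_X k (v 0)).add (isHomogeneous_X k (v 1))))
    rw [← map_pow] at e1 e2 e3
    have e4 : (X (v 0) + X (v 1)) ^ 2 =
        (X (v 0) ^ 2 + X (v 1) ^ 2 + (2 : k) • (X (v 0) * X (v 1)) : MvPolynomial V k) := by
      rw [smul_eq_C_mul, map_ofNat]
      ring
    have e5 : Ideal.Quotient.mk (redIdeal (supportComplex μ) (momentCurve 2 t))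
        ((2 : k) • (X (v 0) * X (v 1))) =
        (2 : k) • Ideal.Quotient.mk _ (X (v 0) * X (v 1)) := rfl
    rw [e4, map_add, map_add, map_add, map_add, e1, e2, e5, map_smul, zero_add, zero_add,
      smul_eq_mul] at e3
    exact (mul_ne_zero h2k h2) e3
  refine ⟨ℓ, hℓ, ?_⟩
  intro j hj
  rcases Nat.lt_or_ge j 1 with h | h
  · have hj0 : j = 0 := by omega
    subst hj0
    exact zero_cond φ _ hℓ hℓ2
  · have hj1 : j = 1 := by omega
    subst hj1
    constructor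
    · intro a _ h
      simpa using h
    · intro b hb
      refine ⟨b, hb, ?_⟩
      have : b - ℓ ^ (2 - 2 * 1) * b = 0 := by simp
      rw [this]
      exact ⟨Submodule.zero_mem _, fun x _ => by rw [zero_mul, map_zero]⟩

end positive

end Pool.Agent.W5h13.MC
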